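import Pool.Agent.NB.Defs

/-!
# Novikov-Boone: a code with many-one complete domain and output `[]`
-/

namespace Pool.Agent.NB

open Turing Turing.PartrecToTM2

/-- The universal partial function: run the `n`-th code on `0`. -/
def univ : ℕ →. ℕ := fun n => Nat.Partrec.Code.eval (Denumerable.ofNat Nat.Partrec.Code n) 0

theorem partrec_univ : Partrec univ :=
  Nat.Partrec.Code.eval_part.comp (Computable.ofNat Nat.Partrec.Code) (Computable.const 0)

theorem re_univ : REPred fun n => (univ n).Dom := partrec_univ.dom_re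

theorem univ_complete (p : ℕ → Prop) (hp : REPred p) : p ≤₀ fun n => (univ n).Dom := by
  let g : ℕ →. ℕ := fun x => (Part.assert (p x.unpair.1) fun _ => Part.some ()).map fun _ => 0
  have hg : Partrec g := by
    have h1 : Partrec fun x : ℕ => (Part.assert (p x.unpair.1) fun _ => Part.some () : Part Unit) :=
      hp.comp (Computable.fst.comp Computable.unpair)
    exact h1.map (Computable.const 0).to₂
  obtain ⟨c, hc⟩ := Nat.Partrec.Code.exists_code.1 (Partrec.nat_iff.1 hg)
  refine ⟨fun n => Encodable.encode (Nat.Partrec.Code.curry c n), ?_, ?_⟩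
  · exact Computable.encode.comp
      ((Nat.Partrec.Code.primrec₂_curry.comp (Primrec.const c) Primrec.id).to_comp)
  · intro n
    have h1 : univ (Encodable.encode (Nat.Partrec.Code.curry c n)) = g (Nat.pair n 0) := by
      simp only [univ, Denumerable.ofNat_encode, Nat.Partrec.Code.eval_curry, hc]
    change p n ↔ (univ (Encodable.encode (Nat.Partrec.Code.curry c n))).Dom
    rw [h1]
    simp [g, Part.assert]

/-- A code whose domain on one-element lists is recursively enumerable and many-one complete. -/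
theorem exists_complete_code : ∃ c : ToPartrec.Code,
    (REPred fun n : ℕ => (c.eval [n]).Dom) ∧
    (∀ p : ℕ → Prop, REPred p → p ≤₀ fun n : ℕ => (c.eval [n]).Dom) ∧
    ∀ (n : ℕ) (w : List ℕ), w ∈ c.eval [n] → w = [] := by
  have hf' := Nat.Partrec'.part_iff₁.2 partrec_univ
  obtain ⟨c₁, hc₁⟩ := Turing.ToPartrec.Code.exists_code hf'
  have h1 : ∀ n : ℕ, c₁.eval [n] = pure <$> univ n := fun n => hc₁ ⟨[n], rfl⟩
  have h2 : ∀ (n : ℕ) (w : List ℕ),
      w ∈ (ToPartrec.Code.comp ToPartrec.Code.nil c₁).eval [n] ↔ (univ n).Dom ∧ w = [] := by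
    intro n w
    rw [ToPartrec.Code.comp_eval]
    simp only [h1]
    constructor
    · intro hw
      obtain ⟨v, hv, hw'⟩ := Part.mem_bind_iff.1 hw
      obtain ⟨a, ha, -⟩ := (Part.mem_map_iff _).1 hv
      rw [ToPartrec.Code.nil_eval] at hw'
      exact ⟨Part.dom_iff_mem.2 ⟨a, ha⟩, Part.mem_some_iff.1 hw'⟩
    · rintro ⟨hd, rfl⟩
      obtain ⟨a, ha⟩ := Part.dom_iff_mem.1 hd
      refine Part.mem_bind_iff.2 ⟨pure a, (Part.mem_map_iff _).2 ⟨a, ha, rfl⟩, ?_⟩
      rw [ToPartrec.Code.nil_eval]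
      exact Part.mem_some _
  have h3 : ∀ n : ℕ,
      (univ n).Dom ↔ ((ToPartrec.Code.comp ToPartrec.Code.nil c₁).eval [n]).Dom := by
    intro n
    constructor
    · intro hd
      exact Part.dom_iff_mem.2 ⟨[], (h2 n []).2 ⟨hd, rfl⟩⟩
    · intro hd
      obtain ⟨w, hw⟩ := Part.dom_iff_mem.1 hd
      exact ((h2 n w).1 hw).1
  refine ⟨ToPartrec.Code.comp ToPartrec.Code.nil c₁, re_univ.of_eq h3, ?_,
    fun n w hw => ((h2 n w).1 hw).2⟩
  intro p hp
  obtain ⟨r, hr, hr2⟩ := univ_complete p hp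
  exact ⟨r, hr, fun a => (hr2 a).trans (h3 _)⟩

end Pool.Agent.NB
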