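import Pool.Agent.NB.Defs

/-!
# Novikov-Boone: connected to `0` implies that the word is trivial

PROOF. Work in `G = PresentedGroup (rels R)`, let `x i, r j, t, k` be the images of the letters.
The relators say: the `x i` commute; `r j * x i ^ p = x i ^ q * r j` (`p = (R j).p i`,
`q = (R j).q i`); `t` commutes with `D b * r j * (D a)⁻¹`; `k` commutes with `r j` and with `t`.
(1) `disp x (c + c') = disp x c * disp x c'` for commuting `x` (induction on `d`, `List.ofFn_succ`,
    `Commute` lemmas).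
(2) `r j * disp x (fun i => p i * u i) = disp x (fun i => q i * u i) * r j` (same induction).
(3) so `r j * Tc(src u) * (r j)⁻¹ = Tc (tgt u)`, where `Tc c = (D c)⁻¹ * t * D c`: indeed
    `D (a + p u) = D a * D (p u)`, and `r j * (D a)⁻¹ * t * D a * (r j)⁻¹ = (D b)⁻¹ * t * D b`.
(4) `k` commutes with `Tc (src u)` iff it commutes with `Tc (tgt u)`; hence by induction on
    `EqvGen` `k` commutes with `Tc c` iff with `Tc 0 = t`, which it does.
-/

namespace Pool.Agent.NB

section aux

variable {G : Type*} [Group G]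

theorem fwd_cm_eq_one {a b : G} (h : cm a b = 1) : Commute a b := by
  unfold cm at h
  have h1 : a * b * a⁻¹ = b := mul_inv_eq_one.1 h
  have h2 : a * b = b * a := mul_inv_eq_iff_eq_mul.1 h1
  exact h2

theorem fwd_cm_of_commute {a b : G} (h : Commute a b) : cm a b = 1 := by
  unfold cm
  rw [h.eq, mul_inv_cancel_right, mul_inv_cancel]

theorem fwd_disp_succ {d : ℕ} (x : Fin (d + 1) → G) (c : Fin (d + 1) → ℤ) :
    disp x c = x 0 ^ c 0 * disp (fun i => x i.succ) (fun i => c i.succ) := by
  unfold disp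
  rw [List.ofFn_succ, List.prod_cons]

theorem fwd_commute_disp {d : ℕ} (x : Fin d → G) (c : Fin d → ℤ) (g : G)
    (h : ∀ i, Commute g (x i)) : Commute g (disp x c) := by
  unfold disp
  apply Commute.list_prod_right
  intro y hy
  rw [List.mem_ofFn] at hy
  obtain ⟨i, rfl⟩ := hy
  exact (h i).zpow_right _

theorem fwd_disp_add {d : ℕ} (x : Fin d → G) (hx : ∀ i j, Commute (x i) (x j))
    (c c' : Fin d → ℤ) : disp x (c + c') = disp x c * disp x c' := by
  induction d with
  | zero => simp [disp]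
  | succ d ih =>
    rw [fwd_disp_succ, fwd_disp_succ x c, fwd_disp_succ x c']
    have h1 := ih (fun i => x i.succ) (fun i j => hx i.succ j.succ) (fun i => c i.succ)
      (fun i => c' i.succ)
    have h2 : (fun i : Fin d => (c + c') i.succ) =
        (fun i : Fin d => c i.succ) + (fun i : Fin d => c' i.succ) := rfl
    rw [h2, h1, Pi.add_apply, zpow_add]
    have h3 : Commute (x 0 ^ c' 0) (disp (fun i : Fin d => x i.succ) (fun i => c i.succ)) :=
      fwd_commute_disp _ _ _ (fun i => (hx 0 i.succ).zpow_left _)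
    have h4 := h3.eq
    calc x 0 ^ c 0 * x 0 ^ c' 0 * (disp (fun i : Fin d => x i.succ) (fun i => c i.succ) *
          disp (fun i : Fin d => x i.succ) (fun i => c' i.succ))
        = x 0 ^ c 0 * (x 0 ^ c' 0 * disp (fun i : Fin d => x i.succ) (fun i => c i.succ)) *
          disp (fun i : Fin d => x i.succ) (fun i => c' i.succ) := by group
      _ = x 0 ^ c 0 * (disp (fun i : Fin d => x i.succ) (fun i => c i.succ) * x 0 ^ c' 0) *
          disp (fun i : Fin d => x i.succ) (fun i => c' i.succ) := by rw [h4]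
      _ = _ := by group

theorem fwd_disp_conj {d : ℕ} (x : Fin d → G) (r : G) (p q : Fin d → ℕ)
    (h : ∀ i, r * x i ^ p i = x i ^ q i * r) (u : Fin d → ℤ) :
    SemiconjBy r (disp x (fun i => (p i : ℤ) * u i)) (disp x (fun i => (q i : ℤ) * u i)) := by
  induction d with
  | zero =>
    simp [disp, SemiconjBy]
  | succ d ih =>
    rw [fwd_disp_succ, fwd_disp_succ]
    refine SemiconjBy.mul_right ?_ ?_
    · have h1 : SemiconjBy r (x 0 ^ p 0) (x 0 ^ q 0) := h 0
      have h2 := h1.zpow_right (u 0)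
      rw [← zpow_natCast, ← zpow_natCast, ← zpow_mul, ← zpow_mul] at h2
      exact h2
    · exact ih (fun i => x i.succ) (fun i => p i.succ) (fun i => q i.succ)
        (fun i => h i.succ) (fun i => u i.succ)

theorem fwd_commute_iff {k r A B : G} (hk : Commute k r) (h : SemiconjBy r A B) :
    Commute k A ↔ Commute k B := by
  have hB : B = r * A * r⁻¹ := by
    rw [h.eq, mul_inv_cancel_right]
  have hA : A = r⁻¹ * B * r := by
    rw [hB]; group
  constructor
  · intro hA'
    rw [hB]
    exact (hk.mul_right hA').mul_right hk.inv_right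
  · intro hB'
    rw [hA]
    exact (hk.inv_right.mul_right hB').mul_right hk

end aux

theorem word_eq_one {d m : ℕ} (R : Fin m → Rule d) (c : Fin d → ℤ)
    (h : Relation.EqvGen (Step R) c 0) : PresentedGroup.mk (rels R) (W c) = 1 := by
  set φ := PresentedGroup.mk (rels R) with hφ
  have hrel : ∀ w ∈ rels R, φ w = 1 := by
    intro w hw
    exact PresentedGroup.mk_eq_one_iff.2 (Subgroup.subset_normalClosure hw)
  have hcm : ∀ a b : FreeGroup (Gen d m), φ (cm a b) = cm (φ a) (φ b) := by
    intro a b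
    simp only [cm, map_mul, map_inv]
  have hdisp : ∀ c : Fin d → ℤ, φ (D c) = disp (fun i => φ (X i)) c := by
    intro c
    unfold D disp
    rw [map_list_prod, List.map_ofFn]
    congr 2
  have hx : ∀ i j, Commute (φ (X i)) (φ (X j)) := by
    intro i j
    apply fwd_cm_eq_one
    rw [← hcm]
    exact hrel _ (Or.inl (Or.inl (Or.inl (Or.inl ⟨(i, j), rfl⟩))))
  have hr : ∀ j i, φ (L j) * φ (X i) ^ (R j).p i = φ (X i) ^ (R j).q i * φ (L j) := by
    intro j i
    have h1 := hrel _ (Or.inl (Or.inl (Or.inl (Or.inr ⟨(i, j), rfl⟩))))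
    simp only [map_mul, map_inv, map_pow] at h1
    exact mul_inv_eq_one.1 h1
  have ht : ∀ j, Commute (φ T) (disp (fun i => φ (X i)) (fun i => ((R j).b i : ℤ)) * φ (L j) *
      (disp (fun i => φ (X i)) (fun i => ((R j).a i : ℤ)))⁻¹) := by
    intro j
    apply fwd_cm_eq_one
    have h1 := hrel _ (Or.inl (Or.inl (Or.inr ⟨j, rfl⟩)))
    rw [hcm] at h1
    simp only [map_mul, map_inv, hdisp] at h1
    exact h1
  have hkr : ∀ j, Commute (φ K) (φ (L j)) := by
    intro j
    apply fwd_cm_eq_one
    rw [← hcm]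
    exact hrel _ (Or.inl (Or.inr ⟨j, rfl⟩))
  have hkt : Commute (φ K) (φ T) := by
    apply fwd_cm_eq_one
    rw [← hcm]
    exact hrel _ (Or.inr rfl)
  have hTc : ∀ c : Fin d → ℤ, φ (Tc c) = (disp (fun i => φ (X i)) c)⁻¹ * φ T *
      disp (fun i => φ (X i)) c := by
    intro c
    unfold Tc
    simp only [map_mul, map_inv, hdisp]
  have hadd : ∀ (a p : Fin d → ℕ) (u : Fin d → ℤ),
      disp (fun i => φ (X i)) (fun i => (a i : ℤ) + (p i : ℤ) * u i) =
      disp (fun i => φ (X i)) (fun i => (a i : ℤ)) *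
      disp (fun i => φ (X i)) (fun i => (p i : ℤ) * u i) := by
    intro a p u
    exact fwd_disp_add (fun i => φ (X i)) hx (fun i => (a i : ℤ)) (fun i => (p i : ℤ) * u i)
  have hstep : ∀ y z, Step R y z → ∃ j, SemiconjBy (φ (L j)) (φ (Tc y)) (φ (Tc z)) := by
    rintro y z ⟨j, u, rfl, rfl⟩
    refine ⟨j, ?_⟩
    rw [hTc, hTc]
    unfold Rule.src Rule.tgt
    rw [hadd, hadd]
    have h1 := fwd_disp_conj (fun i => φ (X i)) (φ (L j)) (R j).p (R j).q (hr j) u
    have h2 := (ht j).eq
    set Da := disp (fun i => φ (X i)) (fun i => ((R j).a i : ℤ)) with hDa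
    set Db := disp (fun i => φ (X i)) (fun i => ((R j).b i : ℤ)) with hDb
    set Dp := disp (fun i => φ (X i)) (fun i => ((R j).p i : ℤ) * u i) with hDp
    set Dq := disp (fun i => φ (X i)) (fun i => ((R j).q i : ℤ) * u i) with hDq
    have h3 : SemiconjBy (φ (L j)) (Da⁻¹ * φ T * Da) (Db⁻¹ * φ T * Db) := by
      unfold SemiconjBy
      calc φ (L j) * (Da⁻¹ * φ T * Da)
          = Db⁻¹ * (Db * φ (L j) * Da⁻¹ * φ T) * Da := by group
        _ = Db⁻¹ * (φ T * (Db * φ (L j) * Da⁻¹)) * Da := by rw [h2]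
        _ = Db⁻¹ * φ T * Db * φ (L j) := by group
    have h4 := (h1.inv_right.mul_right h3).mul_right h1
    have e1 : (Da * Dp)⁻¹ * φ T * (Da * Dp) = Dp⁻¹ * (Da⁻¹ * φ T * Da) * Dp := by group
    have e2 : (Db * Dq)⁻¹ * φ T * (Db * Dq) = Dq⁻¹ * (Db⁻¹ * φ T * Db) * Dq := by group
    rw [e1, e2]
    exact h4
  have heqv : ∀ y z, Relation.EqvGen (Step R) y z →
      (Commute (φ K) (φ (Tc y)) ↔ Commute (φ K) (φ (Tc z))) := by
    intro y z hyz
    induction hyz with
    | rel y z h =>
      obtain ⟨j, hj⟩ := hstep y z h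
      exact fwd_commute_iff (hkr j) hj
    | refl y => exact Iff.rfl
    | symm y z _ ih => exact ih.symm
    | trans y z w _ _ ih1 ih2 => exact ih1.trans ih2
  have h0 : φ (Tc (0 : Fin d → ℤ)) = φ T := by
    rw [hTc]
    have : disp (fun i => φ (X i)) (0 : Fin d → ℤ) = 1 := by
      unfold disp
      apply List.prod_eq_one
      intro y hy
      rw [List.mem_ofFn] at hy
      obtain ⟨i, rfl⟩ := hy
      simp
    rw [this]
    simp
  unfold W
  rw [hcm]
  apply fwd_cm_of_commute
  rw [heqv c 0 h, h0]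
  exact hkt

end Pool.Agent.NB
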