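import Pool.Agent.NB.Enc

/-!
# Novikov-Boone: a code as a finite family of affine rules
-/

namespace Pool.Agent.NB

open Turing Turing.PartrecToTM2 Relation

theorem exists_num {α : Type*} (Q : Finset α) (q0 : α) (h0 : q0 ∈ Q) :
    ∃ num : α → ℕ, Set.InjOn num Q ∧ (∀ q, num q < Q.card) ∧ num q0 = 0 := by
  classical
  have hpos : 0 < Q.card := Finset.card_pos.2 ⟨q0, h0⟩
  let e := Q.equivFin
  let e' := e.trans (Equiv.swap (e ⟨q0, h0⟩) ⟨0, hpos⟩)
  refine ⟨fun q => if h : q ∈ Q then (e' ⟨q, h⟩ : ℕ) else 0, ?_, ?_, ?_⟩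
  · intro q hq q' hq' h
    have h1 : q ∈ Q := hq
    have h2 : q' ∈ Q := hq'
    simp only [h1, h2, dif_pos] at h
    have h3 := e'.injective (Fin.ext h)
    exact congrArg Subtype.val h3
  · intro q
    by_cases h : q ∈ Q
    · simp only [h, dif_pos]
      exact (e' ⟨q, h⟩).isLt
    · simp only [h, dif_neg, not_false_eq_true]
      exact hpos
  · simp [h0, e']

/-- The closed set of states of a code. -/
def stateSet (c : ToPartrec.Code) : Set (Option St × Option Γ') :=
  {s | s.1 ∈ TM2.stmts tr (codeSupp c Cont'.halt)}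

theorem mem_stmts (S : Finset Λ') (l : Λ') (h : l ∈ S) :
    (some (tr l) : Option St) ∈ (TM2.stmts tr S : Finset (Option St)) := by
  classical
  exact Finset.some_mem_insertNone.2 (Finset.mem_biUnion.2 ⟨l, h, TM2.stmts₁_self⟩)

theorem step_closed (c : ToPartrec.Code) (C C' : SCfg) (hC : (C.1, C.2.1) ∈ stateSet c)
    (h : C' ∈ sstep C) : (C'.1, C'.2.1) ∈ stateSet c := by
  obtain ⟨s, v, S⟩ := C
  change s ∈ TM2.stmts tr (codeSupp c Cont'.halt) at hC
  change C'.1 ∈ TM2.stmts tr (codeSupp c Cont'.halt)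
  rcases s with _ | s
  · simp [sstep] at h
  have hsub : ∀ q : St, q ∈ TM2.stmts₁ s → some q ∈ TM2.stmts tr (codeSupp c Cont'.halt) :=
    fun q hq => TM2.stmts_trans hq hC
  cases s with
  | push k f q =>
    simp only [sstep, Option.mem_def, Option.some.injEq] at h
    subst h
    exact hsub q (by simp [TM2.stmts₁, TM2.stmts₁_self])
  | peek k f q =>
    simp only [sstep, Option.mem_def, Option.some.injEq] at h
    subst h
    exact hsub q (by simp [TM2.stmts₁, TM2.stmts₁_self])
  | pop k f q =>
    simp only [sstep, Option.mem_def, Option.some.injEq] at h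
    subst h
    exact hsub q (by simp [TM2.stmts₁, TM2.stmts₁_self])
  | load f q =>
    simp only [sstep, Option.mem_def, Option.some.injEq] at h
    subst h
    exact hsub q (by simp [TM2.stmts₁, TM2.stmts₁_self])
  | branch f q₁ q₂ =>
    simp only [sstep, Option.mem_def, Option.some.injEq] at h
    subst h
    cases f v
    · exact hsub q₂ (by simp [TM2.stmts₁, TM2.stmts₁_self])
    · exact hsub q₁ (by simp [TM2.stmts₁, TM2.stmts₁_self])
  | goto f =>
    simp only [sstep, Option.mem_def, Option.some.injEq] at h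
    subst h
    have h1 := @TM2.stmts_supportsStmt _ _ _ _ ⟨trNormal c Cont'.halt⟩ tr
      (codeSupp c Cont'.halt) _ (tr_supports c Cont'.halt) hC
    have h2 : f v ∈ codeSupp c Cont'.halt := h1 v
    exact mem_stmts _ _ h2
  | halt =>
    simp only [sstep, Option.mem_def, Option.some.injEq] at h
    subst h
    simp [TM2.stmts]

theorem init_mem (c : ToPartrec.Code) (v : Option Γ') :
    (some (tr (trNormal c Cont'.halt)), v) ∈ stateSet c := by
  change some (tr (trNormal c Cont'.halt)) ∈ TM2.stmts tr (codeSupp c Cont'.halt)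
  exact mem_stmts _ _ (tr_supports c Cont'.halt).1

theorem halt_mem (c : ToPartrec.Code) (v : Option Γ') : (none, v) ∈ stateSet c := by
  simp [stateSet, TM2.stmts]

theorem stateSet_finite (c : ToPartrec.Code) : (stateSet c).Finite := by
  have h : stateSet c ⊆ (↑(TM2.stmts tr (codeSupp c Cont'.halt)) : Set (Option St)) ×ˢ
      (Set.univ : Set (Option Γ')) := by
    rintro ⟨s, v⟩ hs
    exact ⟨hs, trivial⟩
  exact ((Finset.finite_toSet _).prod (Set.toFinite _)).subset h

/-- A vector of naturals as a vector of integers. -/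
def vec (s n : ℕ) : Fin 5 → ℤ := ![(s : ℤ), (n : ℤ), 0, 0, 0]

theorem exists_rules (c : ToPartrec.Code) (hc : ∀ (n : ℕ) (w : List ℕ), w ∈ c.eval [n] → w = []) :
    ∃ (m : ℕ) (R : Fin m → Rule 5) (s0 : ℕ) (Y : Set (Fin 5 → ℤ)),
      (∀ j u, (R j).src u ∈ Y ↔ (R j).tgt u ∈ Y) ∧ (0 : Fin 5 → ℤ) ∈ Y ∧
      (∀ n, (c.eval [n]).Dom → EqvGen (Step R) (vec s0 (enc (trList [n]))) 0) ∧
      (∀ n, ¬ (c.eval [n]).Dom → vec s0 (enc (trList [n])) ∉ Y) := by
  classical
  let Qf : Finset (Option St × Option Γ') := (stateSet_finite c).toFinset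
  have hQf : ∀ s, s ∈ Qf ↔ s ∈ stateSet c := fun s => by simp [Qf]
  obtain ⟨num, hinj, hlt, hzero⟩ := exists_num Qf (none, none) ((hQf _).2 (halt_mem c none))
  have hcl : Closed num (stateSet c) := by
    refine ⟨?_, fun C C' hC h => step_closed c C C' hC h⟩
    intro s hs t ht h
    exact hinj ((hQf s).2 hs) ((hQf t).2 ht) h
  let N := Qf.card
  let ι := Qf × Option Γ'
  let e : ι ≃ Fin (Fintype.card ι) := Fintype.equivFin ι
  let R : Fin (Fintype.card ι) → Rule 5 := fun j =>
    ruleAt N num hlt (e.symm j).1.1 (e.symm j).2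
  let s0 := num (some (tr (trNormal c Cont'.halt)), none)
  let Y : Set (Fin 5 → ℤ) := {y | ∃ C : SCfg, (C.1, C.2.1) ∈ stateSet c ∧ encC num C = y ∧
    StateTransition.Reaches sstep C (shalt [])}
  have hinit : ∀ n, encC num (sinit c [n]) = vec s0 (enc (trList [n])) := by
    intro n
    simp only [encC, sinit, vec, mk5]
    rfl
  have hhalt : encC num (shalt []) = 0 := by
    apply ext5
    · simp [encC, shalt, hzero]
    · intro k
      simp only [encC, shalt, mk5_idx]
      cases k <;> simp [enc, trList]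
  have hencinj : ∀ C C' : SCfg, (C.1, C.2.1) ∈ stateSet c → (C'.1, C'.2.1) ∈ stateSet c →
      encC num C = encC num C' → C = C' := by
    intro C C' hC hC' h
    simp only [encC] at h
    rw [mk5_eq] at h
    simp only [mk5_zero, mk5_idx] at h
    obtain ⟨h1, h2⟩ := h
    have h3 := hcl.inj hC hC' (by exact_mod_cast h1)
    simp only [Prod.mk.injEq] at h3
    refine Prod.ext h3.1 (Prod.ext h3.2 ?_)
    funext k
    exact enc_inj (by exact_mod_cast h2 k)
  have hreach : ∀ C C' : SCfg, StateTransition.Reaches sstep C (shalt []) →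
      (C' = C ∨ C' ∈ sstep C) → StateTransition.Reaches sstep C' (shalt []) := by
    intro C C' h1 h2
    rcases h2 with rfl | h2
    · exact h1
    · rcases ReflTransGen.cases_head h1 with h3 | ⟨C'', h3, h4⟩
      · subst h3
        simp [sstep, shalt] at h2
      · have : C' = C'' := Option.mem_unique h2 h3
        rw [this]
        exact h4
  refine ⟨Fintype.card ι, R, s0, Y, ?_, ?_, ?_, ?_⟩
  · intro j u
    have hmem : (e.symm j).1.1 ∈ stateSet c := (hQf _).1 (e.symm j).1.2
    constructor
    · rintro ⟨C, hC1, hC2, hC3⟩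
      obtain ⟨C', h1, h2⟩ := forward hcl _ hmem (e.symm j).2 u C hC1 hC2
      refine ⟨C', ?_, h2, hreach C C' hC3 h1⟩
      rcases h1 with rfl | h1
      · exact hC1
      · exact step_closed c C C' hC1 h1
    · rintro ⟨C', hC1, hC2, hC3⟩
      obtain ⟨C, h0, h1, h2⟩ := backward hcl _ hmem (e.symm j).2 u C' hC1 hC2
      refine ⟨C, h0, h2, ?_⟩
      rcases h1 with rfl | h1
      · exact hC3
      · exact ReflTransGen.head h1 hC3
  · exact ⟨shalt [], halt_mem c none, hhalt, ReflTransGen.refl⟩
  · intro n hn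
    have h1 : ([] : List ℕ) ∈ c.eval [n] := by
      have h2 := Part.get_mem hn
      rwa [hc n _ h2] at h2
    have h3 : shalt [] ∈ StateTransition.eval sstep (sinit c [n]) := by
      rw [small_eval]
      exact Part.mem_map_iff _ |>.2 ⟨[], h1, rfl⟩
    have h4 := (StateTransition.mem_eval.1 h3).1
    rw [← hinit, ← hhalt]
    have h5 : (((sinit c [n]).1, (sinit c [n]).2.1) : Option St × Option Γ') ∈ stateSet c :=
      init_mem c none
    revert h5
    generalize sinit c [n] = C0 at h4
    induction h4 using ReflTransGen.head_induction_on with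
    | refl => intro _; exact EqvGen.refl _
    | head h6 h7 ih =>
      intro h5
      rename_i C C'
      have h8 := step_closed c C C' h5 h6
      refine EqvGen.trans _ _ _ (EqvGen.rel _ _ ?_) (ih h8)
      obtain ⟨a, u, h9, h10⟩ := exists_rule_of_step (N := N) (num := num) (hN := hlt) C C' h6
      refine ⟨e (⟨(C.1, C.2.1), (hQf _).2 h5⟩, a), u, ?_, ?_⟩
      · simp only [R, Equiv.symm_apply_apply]
        exact h9
      · simp only [R, Equiv.symm_apply_apply]
        exact h10
  · intro n hn hY
    obtain ⟨C, hC1, hC2, hC3⟩ := hY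
    have h1 : C = sinit c [n] := hencinj _ _ hC1 (init_mem c none) (hC2.trans (hinit n).symm)
    subst h1
    have h3 : shalt [] ∈ StateTransition.eval sstep (sinit c [n]) :=
      StateTransition.mem_eval.2 ⟨hC3, rfl⟩
    rw [small_eval] at h3
    obtain ⟨w, hw, -⟩ := (Part.mem_map_iff _).1 h3
    exact hn (Part.dom_iff_mem.2 ⟨w, hw⟩)

end Pool.Agent.NB
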