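import Pool.Agent.NB.Defs

/-!
# Novikov-Boone: the input number is a computable function

PROOF. Let `f n = enc (trList [n])` (recall `trList [n] = trNat n ++ [Γ'.cons]`,
`trNat n = trNum (n : Num)`). Then `f 0 = 2`, `f (2 * n) = 5 * f n + 3` for `n > 0`,
`f (2 * n + 1) = 5 * f n + 4` (binary digits, lowest first, are pushed on top; use
`Num.bit0`, `Num.bit1`, `Nat.cast_bit0`-style lemmas or `Num.ofNat'`; `PosNum` recursion:
`trPosNum (PosNum.bit0 n) = Γ'.bit0 :: trPosNum n` and so on). Hence `f` is primitive recursive by
`Primrec.nat_strong_rec` (value at `n` from the value at `n / 2` in the list of previous values),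
or `Nat.Primrec` by hand.
-/

namespace Pool.Agent.NB

open Turing Turing.PartrecToTM2

private theorem trNum_bit0 (n : Num) (h : n ≠ 0) : trNum n.bit0 = Γ'.bit0 :: trNum n := by
  cases n with
  | zero => exact absurd rfl h
  | pos p => rfl

private theorem enc_zero : enc (trList [0]) = 2 := by
  simp [trList, enc, dig]

private theorem enc_even (n : ℕ) (h : n ≠ 0) :
    enc (trList [2 * n]) = 5 * enc (trList [n]) + 3 := by
  have h1 : trNat (2 * n) = Γ'.bit0 :: trNat n := by
    have h2 : ((2 * n : ℕ) : Num) = Num.bit0 (n : Num) := by
      rw [← Num.bit0_of_bit0]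
      push_cast
      ring
    unfold trNat
    rw [h2]
    refine trNum_bit0 _ ?_
    intro h3
    apply h
    exact_mod_cast h3
  simp only [trList, h1, List.cons_append, enc, dig]

private theorem enc_odd (n : ℕ) :
    enc (trList [2 * n + 1]) = 5 * enc (trList [n]) + 4 := by
  by_cases h : n = 0
  · subst h
    have h1 : trNat (2 * 0 + 1) = [Γ'.bit1] := by
      have h2 : ((2 * 0 + 1 : ℕ) : Num) = 1 := by norm_num
      unfold trNat
      rw [h2]
      rfl
    simp only [trList, h1, trNat_zero, List.cons_append, List.nil_append, enc, dig]
  · have h1 : trNat (2 * n + 1) = Γ'.bit1 :: trNat n := by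
      have h2 : ((2 * n + 1 : ℕ) : Num) = Num.bit1 (n : Num) := by
        rw [← Num.bit1_of_bit1]
        push_cast
        ring
      unfold trNat
      rw [h2]
      have h3 : (n : Num) ≠ 0 := by
        intro h3
        apply h
        exact_mod_cast h3
      revert h3
      cases (n : Num) with
      | zero => intro h3; exact absurd rfl h3
      | pos p => intro _; rfl
    simp only [trList, h1, List.cons_append, enc, dig]

theorem primrec_enc : Primrec fun n : ℕ => enc (trList [n]) := by
  have hrec : ∀ n : ℕ, enc (trList [n]) =
      if n = 0 then 2 else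
        5 * enc (trList [n / 2]) + (if n % 2 = 0 then 3 else 4) := by
    intro n
    split_ifs with h1 h2
    · subst h1
      exact enc_zero
    · have h3 : n = 2 * (n / 2) := by omega
      conv_lhs => rw [h3]
      exact enc_even _ (by omega)
    · have h3 : n = 2 * (n / 2) + 1 := by omega
      conv_lhs => rw [h3]
      exact enc_odd _
  have key : Primrec₂ fun (_ : Unit) (n : ℕ) => enc (trList [n]) := by
    refine Primrec.nat_strong_rec _ (g := fun (_ : Unit) (l : List ℕ) =>
      if l.length = 0 then some 2 else
        (l[l.length / 2]?).map fun y => 5 * y + (if l.length % 2 = 0 then 3 else 4)) ?_ ?_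
    · have hl : Primrec fun p : Unit × List ℕ => p.2.length :=
        Primrec.list_length.comp Primrec.snd
      refine Primrec.ite (Primrec.eq.comp hl (Primrec.const 0)) (Primrec.const _) ?_
      refine Primrec.option_map (Primrec.list_getElem?.comp Primrec.snd
        (Primrec.nat_div.comp hl (Primrec.const 2))) ?_
      exact Primrec.nat_add.comp (Primrec.nat_mul.comp (Primrec.const 5) Primrec.snd)
        (Primrec.ite (Primrec.eq.comp (Primrec.nat_mod.comp (hl.comp Primrec.fst)
          (Primrec.const 2)) (Primrec.const 0)) (Primrec.const 3) (Primrec.const 4))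
    · intro _ n
      simp only [List.length_map, List.length_range]
      rw [hrec n]
      split_ifs with h1 h2
      · rfl
      · rw [List.getElem?_map, List.getElem?_range (by omega)]
        rfl
      · rw [List.getElem?_map, List.getElem?_range (by omega)]
        rfl
  exact key.comp (Primrec.const ()) Primrec.id

end Pool.Agent.NB
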