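import Pool.Agent.NB.Defs

/-!
# Novikov-Boone: the words as lists
-/

namespace Pool.Agent.NB

section lists

variable {α : Type*}

/-- The list of `x0 ^ s * x1 ^ n`. -/
def dl (x0 x1 : α) (s n : ℕ) : List (α × Bool) :=
  List.replicate s (x0, true) ++ List.replicate n (x1, true)

/-- The list of `(x0 ^ s * x1 ^ n)⁻¹`. -/
def dli (x0 x1 : α) (s n : ℕ) : List (α × Bool) :=
  List.replicate n (x1, false) ++ List.replicate s (x0, false)

/-- The list of the word `W`. -/
def wl (x0 x1 t k : α) (s n : ℕ) : List (α × Bool) :=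
  (k, true) :: (dli x0 x1 s n ++ ((t, true) :: (dl x0 x1 s n ++ ((k, false) ::
    (dli x0 x1 s n ++ ((t, false) :: dl x0 x1 s n))))))

theorem mk_replicate (a : α) (n : ℕ) :
    FreeGroup.mk (List.replicate n (a, true)) = FreeGroup.of a ^ n := by
  induction n with
  | zero => rfl
  | succ n ih =>
    rw [List.replicate_succ, pow_succ', ← ih]
    rfl

theorem mk_replicate_inv (a : α) (n : ℕ) :
    FreeGroup.mk (List.replicate n (a, false)) = (FreeGroup.of a ^ n)⁻¹ := by
  rw [← mk_replicate, FreeGroup.inv_mk]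
  congr 1
  simp [FreeGroup.invRev]

theorem mk_dl (x0 x1 : α) (s n : ℕ) :
    FreeGroup.mk (dl x0 x1 s n) = FreeGroup.of x0 ^ s * FreeGroup.of x1 ^ n := by
  rw [dl, ← FreeGroup.mul_mk, mk_replicate, mk_replicate]

theorem mk_dli (x0 x1 : α) (s n : ℕ) :
    FreeGroup.mk (dli x0 x1 s n) = (FreeGroup.of x0 ^ s * FreeGroup.of x1 ^ n)⁻¹ := by
  rw [dli, ← FreeGroup.mul_mk, mk_replicate_inv, mk_replicate_inv, mul_inv_rev]

theorem mk_cons (a : α) (b : Bool) (l : List (α × Bool)) :
    FreeGroup.mk ((a, b) :: l) = FreeGroup.mk [(a, b)] * FreeGroup.mk l := rfl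

theorem mk_single_false (a : α) : FreeGroup.mk [(a, false)] = (FreeGroup.of a)⁻¹ := rfl

theorem mk_wl (x0 x1 t k : α) (s n : ℕ) :
    FreeGroup.mk (wl x0 x1 t k s n) =
      cm (FreeGroup.of k) ((FreeGroup.of x0 ^ s * FreeGroup.of x1 ^ n)⁻¹ * FreeGroup.of t *
        (FreeGroup.of x0 ^ s * FreeGroup.of x1 ^ n)) := by
  have h : FreeGroup.mk (wl x0 x1 t k s n) = FreeGroup.mk [(k, true)] *
      (FreeGroup.mk (dli x0 x1 s n) * (FreeGroup.mk [(t, true)] * (FreeGroup.mk (dl x0 x1 s n) *
        (FreeGroup.mk [(k, false)] * (FreeGroup.mk (dli x0 x1 s n) *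
          (FreeGroup.mk [(t, false)] * FreeGroup.mk (dl x0 x1 s n))))))) := rfl
  have h1 : (FreeGroup.mk [(t, true)] : FreeGroup α) = FreeGroup.of t := rfl
  have h2 : (FreeGroup.mk [(k, true)] : FreeGroup α) = FreeGroup.of k := rfl
  rw [h, mk_dl, mk_dli, mk_single_false, mk_single_false, h1, h2, cm]
  group

theorem primrec_replicate {β : Type*} [Primcodable β] (a : β) :
    Primrec fun n : ℕ => List.replicate n a := by
  have h : (fun n : ℕ => List.replicate n a) = fun n => (List.range n).map fun _ => a := by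
    funext n
    simp
  rw [h]
  exact Primrec.list_map Primrec.list_range (Primrec.const a).to₂

theorem primrec_wl {β : Type*} [Primcodable β] (x0 x1 t k : β) (s : ℕ) :
    Primrec fun n : ℕ => wl x0 x1 t k s n := by
  have h1 : Primrec fun n : ℕ => dl x0 x1 s n :=
    Primrec.list_append.comp (Primrec.const _) (primrec_replicate _)
  have h2 : Primrec fun n : ℕ => dli x0 x1 s n :=
    Primrec.list_append.comp (primrec_replicate _) (Primrec.const _)
  unfold wl
  refine Primrec.list_cons.comp (Primrec.const _) ?_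
  refine Primrec.list_append.comp h2 ?_
  refine Primrec.list_cons.comp (Primrec.const _) ?_
  refine Primrec.list_append.comp h1 ?_
  refine Primrec.list_cons.comp (Primrec.const _) ?_
  refine Primrec.list_append.comp h2 ?_
  exact Primrec.list_cons.comp (Primrec.const _) h1

end lists

end Pool.Agent.NB
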