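import Pool.Agent.NB.Model
import Pool.Agent.NB.Forward
import Pool.Agent.NB.Machine
import Pool.Agent.NB.Complete
import Pool.Agent.NB.Val
import Pool.Agent.NB.Words

/-!
# The Novikov-Boone theorem, with words that are trivial or of infinite order
-/

namespace Pool.Agent.NB

open Turing Turing.PartrecToTM2

theorem mk_wl_vec {m : ℕ} (s n : ℕ) :
    FreeGroup.mk (wl (Gen.x 0 : Gen 5 m) (Gen.x 1) Gen.t Gen.k s n) = W (vec s n) := by
  rw [mk_wl]
  have h : (D (vec s n) : FreeGroup (Gen 5 m)) =
      FreeGroup.of (Gen.x 0) ^ s * FreeGroup.of (Gen.x 1) ^ n := by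
    simp [D, disp, vec, X, List.ofFn_succ]
  simp only [W, Tc, h]
  rfl

/-- A many-one complete recursively enumerable predicate is not computable. -/
theorem not_computable_of_complete (p : ℕ → Prop) (hp : ∀ q : ℕ → Prop, REPred q → q ≤₀ p) :
    ¬ ComputablePred p := by
  intro h
  have h1 := hp _ re_univ
  have h2 : ComputablePred fun n => (univ n).Dom := ComputablePred.computable_of_manyOneReducible h1 h
  apply ComputablePred.halting_problem 0
  have hr : (fun c : Nat.Partrec.Code => (Nat.Partrec.Code.eval c 0).Dom) ≤₀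
      (fun n : ℕ => (univ n).Dom) := by
    refine ⟨Encodable.encode, Computable.encode, fun c => ?_⟩
    simp only [univ, Denumerable.ofNat_encode]
  exact ComputablePred.computable_of_manyOneReducible hr h2

/-- There is a finitely presented group and a computable sequence of words in its generators, each
trivial or of infinite order in the group, such that the set of indices of the trivial ones is
recursively enumerable and many-one complete (hence not computable). -/
theorem novikov_boone : ∃ (N : ℕ) (rels : Set (FreeGroup (Fin N))) (w : ℕ → List (Fin N × Bool)),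
    rels.Finite ∧ Computable w ∧
    (REPred fun n => PresentedGroup.mk rels (FreeGroup.mk (w n)) = 1) ∧
    (∀ p : ℕ → Prop, REPred p → p ≤₀ fun n => PresentedGroup.mk rels (FreeGroup.mk (w n)) = 1) ∧
    ∀ n, PresentedGroup.mk rels (FreeGroup.mk (w n)) = 1 ∨
      ¬ IsOfFinOrder (PresentedGroup.mk rels (FreeGroup.mk (w n))) := by
  obtain ⟨c, hc0, hc1, hc2⟩ := exists_complete_code
  obtain ⟨m, R, s0, Y, hY, h0, hdom, hndom⟩ := exists_rules c hc2
  let e : Gen 5 m ≃ Fin (Fintype.card (Gen 5 m)) := Fintype.equivFin _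
  let w : ℕ → List (Fin (Fintype.card (Gen 5 m)) × Bool) := fun n =>
    wl (e (Gen.x 0)) (e (Gen.x 1)) (e Gen.t) (e Gen.k) s0 (enc (trList [n]))
  let E := PresentedGroup.equivPresentedGroup (rels R) e
  have hE : ∀ g : FreeGroup (Gen 5 m), E (PresentedGroup.mk (rels R) g) =
      PresentedGroup.mk (FreeGroup.freeGroupCongr e '' rels R) (FreeGroup.freeGroupCongr e g) :=
    fun g => rfl
  have hw : ∀ n, PresentedGroup.mk (FreeGroup.freeGroupCongr e '' rels R) (FreeGroup.mk (w n)) =
      E (PresentedGroup.mk (rels R) (W (vec s0 (enc (trList [n]))))) := by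
    intro n
    rw [hE, ← mk_wl_vec, mk_wl]
    simp only [mk_wl]
    congr 1
    simp [cm]
  have h1 : ∀ n, (c.eval [n]).Dom →
      PresentedGroup.mk (FreeGroup.freeGroupCongr e '' rels R) (FreeGroup.mk (w n)) = 1 := by
    intro n hn
    rw [hw, word_eq_one R _ (hdom n hn), map_one]
  have h2 : ∀ n, ¬ (c.eval [n]).Dom → ¬ IsOfFinOrder
      (PresentedGroup.mk (FreeGroup.freeGroupCongr e '' rels R) (FreeGroup.mk (w n))) := by
    intro n hn hf
    rw [hw] at hf
    have hf2 := E.symm.toMonoidHom.isOfFinOrder hf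
    refine word_not_finOrder R Y hY h0 _ (hndom n hn) ?_
    simpa using hf2
  have h3 : ∀ n, (c.eval [n]).Dom ↔
      PresentedGroup.mk (FreeGroup.freeGroupCongr e '' rels R) (FreeGroup.mk (w n)) = 1 := by
    intro n
    constructor
    · exact h1 n
    · intro h3
      by_contra h4
      exact h2 n h4 (h3 ▸ IsOfFinOrder.one)
  refine ⟨Fintype.card (Gen 5 m), FreeGroup.freeGroupCongr e '' rels R, w,
    (rels_finite R).image _, ?_, hc0.of_eq h3, ?_, ?_⟩
  · exact (primrec_wl _ _ _ _ _).to_comp.comp primrec_enc.to_comp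
  · intro p hp
    obtain ⟨r, hr, hr2⟩ := hc1 p hp
    exact ⟨r, hr, fun a => (hr2 a).trans (h3 _)⟩
  · intro n
    by_cases h : (c.eval [n]).Dom
    · exact Or.inl (h1 n h)
    · exact Or.inr (h2 n h)

end Pool.Agent.NB
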