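import Pool.Agent.NB.Defs

/-!
# Novikov-Boone: small steps

PROOF. Apply `StateTransition.tr_eval` and `StateTransition.tr_eval_rev` (or `tr_eval_dom`) to the
relation `trr a b : b = (a.l.map tr, a.var, a.stk)` between `TM2.Cfg` with `TM2.step tr` and
`SCfg` with `sstep`. `Respects (TM2.step tr) sstep trr`: for `a = ⟨none, v, S⟩` both sides are
`none`; for `a = ⟨some l, v, S⟩` show by induction on the statement `q` that
`Reaches₁ sstep (some q, v, S) (c.l.map tr, c.var, c.stk)` with `c = TM2.stepAux q v S` (each
constructor is one small step; for `branch` split on `f v`). The final configurations: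
`PartrecToTM2.halt w` corresponds to `shalt w`. Then use `Turing.PartrecToTM2.tr_eval`.
-/

namespace Pool.Agent.NB

open Turing Turing.PartrecToTM2

/-- The small-step configuration of a configuration of the stack machine. -/
private def emb (a : TM2.Cfg (fun _ : K' => Γ') Λ' (Option Γ')) : SCfg :=
  (a.l.map tr, a.var, a.stk)

private theorem small_reach (q : TM2.Stmt (fun _ : K' => Γ') Λ' (Option Γ')) :
    ∀ (v : Option Γ') (S : K' → List Γ'),
      StateTransition.Reaches₁ sstep (some q, v, S) (emb (TM2.stepAux q v S)) := by
  induction q with
  | push k f q ih =>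
    intro v S
    exact Relation.TransGen.head (by rfl) (ih v (Function.update S k (f v :: S k)))
  | peek k f q ih =>
    intro v S
    exact Relation.TransGen.head (by rfl) (ih (f v (S k).head?) S)
  | pop k f q ih =>
    intro v S
    exact Relation.TransGen.head (by rfl)
      (ih (f v (S k).head?) (Function.update S k (S k).tail))
  | load f q ih =>
    intro v S
    exact Relation.TransGen.head (by rfl) (ih (f v) S)
  | branch f q₁ q₂ ih₁ ih₂ =>
    intro v S
    have h : StateTransition.Reaches₁ sstep (some (cond (f v) q₁ q₂), v, S)
        (emb (TM2.stepAux (TM2.Stmt.branch f q₁ q₂) v S)) := by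
      rw [TM2.stepAux.eq_5]
      cases f v with
      | true => exact ih₁ v S
      | false => exact ih₂ v S
    exact Relation.TransGen.head (by rfl) h
  | goto f =>
    intro v S
    exact Relation.TransGen.single (by rfl)
  | halt =>
    intro v S
    exact Relation.TransGen.single (by rfl)

private theorem small_resp :
    StateTransition.Respects (TM2.step tr) sstep fun a b => emb a = b := by
  rintro ⟨l, v, S⟩ b rfl
  cases l with
  | none => rfl
  | some l => exact ⟨_, rfl, small_reach (tr l) v S⟩

theorem small_eval (c : ToPartrec.Code) (v : List ℕ) :
    StateTransition.eval sstep (sinit c v) = shalt <$> ToPartrec.Code.eval c v := by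
  have h1 := StateTransition.tr_eval' (TM2.step tr) sstep emb small_resp (init c v)
  have h2 : emb (init c v) = sinit c v := rfl
  rw [h2, Turing.PartrecToTM2.tr_eval] at h1
  rw [h1]
  simp only [Part.map_eq_map]
  rfl

end Pool.Agent.NB
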