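import Pool.Agent.NB.Defs

/-!
# Novikov-Boone: a code with undecidable domain and output `[]`

PROOF. `f : ℕ →. ℕ`, `f n = (Nat.Partrec.Code.eval (Denumerable.ofNat Nat.Partrec.Code n) 0)` is
partial recursive (`Nat.Partrec.Code.eval_part`), so `Nat.Partrec'.part_iff₁` and
`Turing.ToPartrec.Code.exists_code` give a code `c₁` with `c₁.eval [n] = pure <$> f n`.
Take `c = Code.comp Code.nil c₁` (`Turing.ToPartrec.Code.nil_eval : nil.eval v = pure []`).
The domain is undecidable by `ComputablePred.halting_problem 0` composed with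
`Encodable.encode : Nat.Partrec.Code → ℕ` (computable; use `ComputablePred.computable_iff` or
`ComputablePred.of_eq`/reducibility `ManyOneReducible`).
-/

namespace Pool.Agent.NB

open Turing Turing.PartrecToTM2

theorem exists_halting_code : ∃ c : ToPartrec.Code,
    (¬ ComputablePred fun n : ℕ => (c.eval [n]).Dom) ∧
    ∀ (n : ℕ) (w : List ℕ), w ∈ c.eval [n] → w = [] := by
  let f : ℕ →. ℕ := fun n =>
    Nat.Partrec.Code.eval (Denumerable.ofNat Nat.Partrec.Code n) 0
  have hf : Partrec f :=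
    Nat.Partrec.Code.eval_part.comp (Computable.ofNat Nat.Partrec.Code) (Computable.const 0)
  have hf' := Nat.Partrec'.part_iff₁.2 hf
  obtain ⟨c₁, hc₁⟩ := Turing.ToPartrec.Code.exists_code hf'
  have h1 : ∀ n : ℕ, c₁.eval [n] = pure <$> f n := fun n => hc₁ ⟨[n], rfl⟩
  have h2 : ∀ (n : ℕ) (w : List ℕ),
      w ∈ (ToPartrec.Code.comp ToPartrec.Code.nil c₁).eval [n] ↔ (f n).Dom ∧ w = [] := by
    intro n w
    rw [ToPartrec.Code.comp_eval]
    simp only [h1]
    constructor
    · intro hw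
      obtain ⟨v, hv, hw'⟩ := Part.mem_bind_iff.1 hw
      obtain ⟨a, ha, -⟩ := (Part.mem_map_iff _).1 hv
      rw [ToPartrec.Code.nil_eval] at hw'
      exact ⟨Part.dom_iff_mem.2 ⟨a, ha⟩, Part.mem_some_iff.1 hw'⟩
    · rintro ⟨hd, rfl⟩
      obtain ⟨a, ha⟩ := Part.dom_iff_mem.1 hd
      refine Part.mem_bind_iff.2 ⟨pure a, (Part.mem_map_iff _).2 ⟨a, ha, rfl⟩, ?_⟩
      rw [ToPartrec.Code.nil_eval]
      exact Part.mem_some _
  have h3 : ∀ n : ℕ, ((ToPartrec.Code.comp ToPartrec.Code.nil c₁).eval [n]).Dom ↔ (f n).Dom := by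
    intro n
    constructor
    · intro hd
      obtain ⟨w, hw⟩ := Part.dom_iff_mem.1 hd
      exact ((h2 n w).1 hw).1
    · intro hd
      exact Part.dom_iff_mem.2 ⟨[], (h2 n []).2 ⟨hd, rfl⟩⟩
  refine ⟨ToPartrec.Code.comp ToPartrec.Code.nil c₁, ?_, fun n w hw => ((h2 n w).1 hw).2⟩
  intro h
  apply ComputablePred.halting_problem 0
  have hr : (fun c : Nat.Partrec.Code => (Nat.Partrec.Code.eval c 0).Dom) ≤₀
      (fun n : ℕ => ((ToPartrec.Code.comp ToPartrec.Code.nil c₁).eval [n]).Dom) := by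
    refine ⟨Encodable.encode, Computable.encode, fun c => ?_⟩
    refine Iff.trans ?_ (h3 (Encodable.encode c)).symm
    simp only [f, Denumerable.ofNat_encode]
  exact ComputablePred.computable_of_manyOneReducible hr h

end Pool.Agent.NB
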