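import Mathlib

/-!
# Novikov-Boone: definitions

The plan (see `Pool/Agent/NB/BLUEPRINT.md`): a finite family of affine rules on `ℤ^d` gives a
finitely presented group and words `W c`, `c ∈ ℤ^d`, with `W c = 1` if `c` is connected to `0` by
the rules and `W c` of infinite order if `c` is outside an invariant set containing `0`.
The stack machine of Mathlib (`Turing.PartrecToTM2`) is a family of affine rules on `ℤ^5`.
-/

namespace Pool.Agent.NB

/-- An affine rule on `ℤ^d`: it moves `a + p u` to `b + q u` for each `u ∈ ℤ^d`. -/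
structure Rule (d : ℕ) where
  /-- moduli of the source -/
  p : Fin d → ℕ
  /-- moduli of the target -/
  q : Fin d → ℕ
  /-- residues of the source -/
  a : Fin d → ℕ
  /-- residues of the target -/
  b : Fin d → ℕ
  ha : ∀ i, a i < p i
  hb : ∀ i, b i < q i

/-- The source `a + p u`. -/
def Rule.src {d : ℕ} (r : Rule d) (u : Fin d → ℤ) : Fin d → ℤ :=
  fun i => (r.a i : ℤ) + (r.p i : ℤ) * u i

/-- The target `b + q u`. -/
def Rule.tgt {d : ℕ} (r : Rule d) (u : Fin d → ℤ) : Fin d → ℤ :=
  fun i => (r.b i : ℤ) + (r.q i : ℤ) * u i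

/-- One step of a family of rules. -/
def Step {d m : ℕ} (R : Fin m → Rule d) (x y : Fin d → ℤ) : Prop :=
  ∃ (j : Fin m) (u : Fin d → ℤ), x = (R j).src u ∧ y = (R j).tgt u

/-- Generators: translations `x i`, one letter `r j` for each rule, and `t`, `k`. -/
inductive Gen (d m : ℕ) where
  | x (i : Fin d)
  | r (j : Fin m)
  | t
  | k
  deriving DecidableEq, Fintype

/-- The commutator `a b a⁻¹ b⁻¹`. -/
def cm {G : Type*} [Group G] (a b : G) : G := a * b * a⁻¹ * b⁻¹

/-- The displacement `x_0 ^ c_0 * x_1 ^ c_1 * ...` in a group. -/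
def disp {G : Type*} [Group G] {d : ℕ} (x : Fin d → G) (c : Fin d → ℤ) : G :=
  (List.ofFn fun i => x i ^ c i).prod

section words

variable {d m : ℕ}

/-- The letter `x i`. -/
def X (i : Fin d) : FreeGroup (Gen d m) := FreeGroup.of (Gen.x i)
/-- The letter `r j`. -/
def L (j : Fin m) : FreeGroup (Gen d m) := FreeGroup.of (Gen.r j)
/-- The letter `t`. -/
def T : FreeGroup (Gen d m) := FreeGroup.of Gen.t
/-- The letter `k`. -/
def K : FreeGroup (Gen d m) := FreeGroup.of Gen.k

/-- The word `x ^ c`. -/
def D (c : Fin d → ℤ) : FreeGroup (Gen d m) := disp X c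

/-- The word `t` conjugated to the place `c`. -/
def Tc (c : Fin d → ℤ) : FreeGroup (Gen d m) := (D c)⁻¹ * T * D c

/-- The word whose triviality encodes that `c` is connected to `0`. -/
def W (c : Fin d → ℤ) : FreeGroup (Gen d m) := cm K (Tc c)

/-- The relators. -/
def rels (R : Fin m → Rule d) : Set (FreeGroup (Gen d m)) :=
  (Set.range fun ij : Fin d × Fin d => cm (X ij.1) (X ij.2)) ∪
  (Set.range fun ij : Fin d × Fin m =>
    L ij.2 * X ij.1 ^ (R ij.2).p ij.1 * (X ij.1 ^ (R ij.2).q ij.1 * L ij.2)⁻¹) ∪
  (Set.range fun j : Fin m =>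
    cm T (D (fun i => ((R j).b i : ℤ)) * L j * (D (fun i => ((R j).a i : ℤ)))⁻¹)) ∪
  (Set.range fun j : Fin m => cm K (L j)) ∪ {cm K T}

theorem rels_finite (R : Fin m → Rule d) : (rels R).Finite := by
  unfold rels
  refine Set.Finite.union (Set.Finite.union (Set.Finite.union (Set.Finite.union ?_ ?_) ?_) ?_) ?_
  · exact Set.finite_range _
  · exact Set.finite_range _
  · exact Set.finite_range _
  · exact Set.finite_range _
  · exact Set.finite_singleton _

end words

section machine

open Turing Turing.PartrecToTM2

/-- The digit of a stack symbol. -/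
def dig : Γ' → ℕ
  | Γ'.consₗ => 1
  | Γ'.cons => 2
  | Γ'.bit0 => 3
  | Γ'.bit1 => 4

/-- A stack as a number in base 5 without the digit 0. -/
def enc : List Γ' → ℕ
  | [] => 0
  | a :: l => 5 * enc l + dig a

/-- Configurations of the small-step machine: remaining statement (`none`: halted), local
variable, stacks. -/
abbrev SCfg := Option (TM2.Stmt (fun _ : K' => Γ') Λ' (Option Γ')) × Option Γ' × (K' → List Γ')

/-- Small steps of the stack machine `Turing.PartrecToTM2.tr`. -/
def sstep : SCfg → Option SCfg
  | (none, _, _) => none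
  | (some (TM2.Stmt.push k f q), v, S) => some (some q, v, Function.update S k (f v :: S k))
  | (some (TM2.Stmt.peek k f q), v, S) => some (some q, f v (S k).head?, S)
  | (some (TM2.Stmt.pop k f q), v, S) =>
      some (some q, f v (S k).head?, Function.update S k (S k).tail)
  | (some (TM2.Stmt.load f q), v, S) => some (some q, f v, S)
  | (some (TM2.Stmt.branch f q₁ q₂), v, S) => some (some (cond (f v) q₁ q₂), v, S)
  | (some (TM2.Stmt.goto f), v, S) => some (some (tr (f v)), v, S)
  | (some TM2.Stmt.halt, v, S) => some (none, v, S)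

/-- The initial small-step configuration for the code `c` and the input `v`. -/
def sinit (c : ToPartrec.Code) (v : List ℕ) : SCfg :=
  (some (tr (trNormal c Cont'.halt)), none, K'.elim (trList v) [] [] [])

/-- The halted configuration with output `v`. -/
def shalt (v : List ℕ) : SCfg := (none, none, K'.elim (trList v) [] [] [])

end machine

end Pool.Agent.NB
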