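import Pool.Agent.NB.Small

/-!
# Novikov-Boone: the stack machine as a family of affine rules
-/

namespace Pool.Agent.NB

open Turing Turing.PartrecToTM2

/-- The statements of the machine. -/
abbrev St := TM2.Stmt (fun _ : K' => Γ') Λ' (Option Γ')

/-- The coordinate of a stack. -/
def idx : K' → Fin 5
  | K'.main => 1
  | K'.rev => 2
  | K'.aux => 3
  | K'.stack => 4

/-- A vector from the state coordinate and the stack coordinates. -/
def mk5 {α : Type*} (s : α) (f : K' → α) : Fin 5 → α :=
  ![s, f K'.main, f K'.rev, f K'.aux, f K'.stack]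

@[simp] theorem mk5_zero {α : Type*} (s : α) (f : K' → α) : mk5 s f 0 = s := rfl

@[simp] theorem mk5_idx {α : Type*} (s : α) (f : K' → α) (k : K') : mk5 s f (idx k) = f k := by
  cases k <;> rfl

theorem forall_fin5 {P : Fin 5 → Prop} (h0 : P 0) (h : ∀ k, P (idx k)) : ∀ i, P i := by
  intro i
  fin_cases i
  · exact h0
  · exact h K'.main
  · exact h K'.rev
  · exact h K'.aux
  · exact h K'.stack

theorem ext5 {α : Type*} {x y : Fin 5 → α} (h0 : x 0 = y 0) (h : ∀ k, x (idx k) = y (idx k)) :
    x = y := funext (forall_fin5 h0 h)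

theorem mk5_eq {α : Type*} {s : α} {f : K' → α} {y : Fin 5 → α} :
    mk5 s f = y ↔ s = y 0 ∧ ∀ k, f k = y (idx k) := by
  constructor
  · rintro rfl
    simp
  · rintro ⟨h1, h2⟩
    exact ext5 (by simpa using h1) (by simpa using h2)

/-- The digit of an optional symbol. -/
def dig' : Option Γ' → ℕ
  | none => 0
  | some g => dig g

theorem dig_pos (g : Γ') : 0 < dig g := by cases g <;> simp [dig]
theorem dig_lt (g : Γ') : dig g < 5 := by cases g <;> simp [dig]
theorem dig'_lt (g : Option Γ') : dig' g < 5 := by
  cases g
  · simp [dig']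
  · exact dig_lt _

theorem dig_inj {g h : Γ'} (e : dig g = dig h) : g = h := by
  cases g <;> cases h <;> simp_all [dig]

theorem dig'_inj {g h : Option Γ'} (e : dig' g = dig' h) : g = h := by
  cases g with
  | none =>
    cases h with
    | none => rfl
    | some h => exact absurd e (by have := dig_pos h; simp [dig']; omega)
  | some g =>
    cases h with
    | none => exact absurd e (by have := dig_pos g; simp [dig']; omega)
    | some h => rw [dig_inj e]

theorem enc_inj : ∀ {l l' : List Γ'}, enc l = enc l' → l = l'
  | [], [], _ => rfl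
  | [], b :: l', h => by
    have := dig_pos b
    simp only [enc] at h
    omega
  | a :: l, [], h => by
    have := dig_pos a
    simp only [enc] at h
    omega
  | a :: l, b :: l', h => by
    have h1 := dig_lt a
    have h2 := dig_lt b
    simp only [enc] at h
    have h3 : dig a = dig b := by omega
    have h4 : enc l = enc l' := by omega
    rw [dig_inj h3, enc_inj h4]

/-- Reading off the top symbol. -/
theorem enc_head (l : List Γ') (a : Option Γ') (w : ℤ) (h : (enc l : ℤ) = dig' a + 5 * w) :
    l.head? = a := by
  have h1 : (enc l : ℤ) = dig' l.head? + 5 * (enc l.tail : ℤ) := by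
    cases l with
    | nil => simp [enc, dig']
    | cons b l => simp [enc, dig']; ring
  have h2 := dig'_lt l.head?
  have h3 := dig'_lt a
  apply dig'_inj
  omega

theorem enc_tail (l : List Γ') (a : Option Γ') (w : ℤ) (h : (enc l : ℤ) = dig' a + 5 * w) :
    (enc l.tail : ℤ) = w := by
  have h1 : (enc l : ℤ) = dig' l.head? + 5 * (enc l.tail : ℤ) := by
    cases l with
    | nil => simp [enc, dig']
    | cons b l => simp [enc, dig']; ring
  have h2 := enc_head l a w h
  rw [h2] at h1
  omega

theorem enc_eq (l : List Γ') : (enc l : ℤ) = dig' l.head? + 5 * (enc l.tail : ℤ) := by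
  cases l with
  | nil => simp [enc, dig']
  | cons b l => simp [enc, dig']; ring

/-- A rule acting on one stack. -/
def srule (N s s' : ℕ) (hs : s < N) (hs' : s' < N) (k : K') (P A Q B : ℕ) (hA : A < P)
    (hB : B < Q) : Rule 5 where
  p := mk5 N (fun j => if j = k then P else 1)
  q := mk5 N (fun j => if j = k then Q else 1)
  a := mk5 s (fun j => if j = k then A else 0)
  b := mk5 s' (fun j => if j = k then B else 0)
  ha := by
    apply forall_fin5
    · simpa using hs
    · intro j
      simp only [mk5_idx]
      split_ifs <;> omega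
  hb := by
    apply forall_fin5
    · simpa using hs'
    · intro j
      simp only [mk5_idx]
      split_ifs <;> omega

theorem srule_src {N s s' : ℕ} {hs : s < N} {hs' : s' < N} {k : K'} {P A Q B : ℕ} {hA : A < P}
    {hB : B < Q} (u : Fin 5 → ℤ) :
    (srule N s s' hs hs' k P A Q B hA hB).src u =
      mk5 ((s : ℤ) + N * u 0) (fun j => if j = k then (A : ℤ) + P * u (idx j) else u (idx j)) := by
  apply ext5
  · simp [Rule.src, srule]
  · intro j
    simp only [Rule.src, srule, mk5_idx]
    split_ifs <;> simp

theorem srule_tgt {N s s' : ℕ} {hs : s < N} {hs' : s' < N} {k : K'} {P A Q B : ℕ} {hA : A < P}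
    {hB : B < Q} (u : Fin 5 → ℤ) :
    (srule N s s' hs hs' k P A Q B hA hB).tgt u =
      mk5 ((s' : ℤ) + N * u 0) (fun j => if j = k then (B : ℤ) + Q * u (idx j) else u (idx j)) := by
  apply ext5
  · simp [Rule.tgt, srule]
  · intro j
    simp only [Rule.tgt, srule, mk5_idx]
    split_ifs <;> simp

section family

variable (N : ℕ) (num : Option St × Option Γ' → ℕ) (hN : ∀ s, num s < N)

/-- The rule of a state and a digit. -/
def ruleAt : (Option St × Option Γ') → Option Γ' → Rule 5
  | (none, v), _ => srule N (num (none, v)) (num (none, v)) (hN _) (hN _) K'.main 1 0 1 0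
      (by norm_num) (by norm_num)
  | (some (TM2.Stmt.push k f q), v), _ =>
      srule N (num (some (TM2.Stmt.push k f q), v)) (num (some q, v)) (hN _) (hN _) k 1 0 5
        (dig (f v)) (by norm_num) (dig_lt _)
  | (some (TM2.Stmt.peek k f q), v), a =>
      srule N (num (some (TM2.Stmt.peek k f q), v)) (num (some q, f v a)) (hN _) (hN _) k 5
        (dig' a) 5 (dig' a) (dig'_lt _) (dig'_lt _)
  | (some (TM2.Stmt.pop k f q), v), none =>
      srule N (num (some (TM2.Stmt.pop k f q), v)) (num (some q, f v none)) (hN _) (hN _) k 5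
        0 5 0 (by norm_num) (by norm_num)
  | (some (TM2.Stmt.pop k f q), v), some g =>
      srule N (num (some (TM2.Stmt.pop k f q), v)) (num (some q, f v (some g))) (hN _) (hN _) k 5
        (dig g) 1 0 (dig_lt _) (by norm_num)
  | (some (TM2.Stmt.load f q), v), _ =>
      srule N (num (some (TM2.Stmt.load f q), v)) (num (some q, f v)) (hN _) (hN _) K'.main 1 0 1 0
        (by norm_num) (by norm_num)
  | (some (TM2.Stmt.branch f q₁ q₂), v), _ =>
      srule N (num (some (TM2.Stmt.branch f q₁ q₂), v)) (num (some (cond (f v) q₁ q₂), v))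
        (hN _) (hN _) K'.main 1 0 1 0 (by norm_num) (by norm_num)
  | (some (TM2.Stmt.goto f), v), _ =>
      srule N (num (some (TM2.Stmt.goto f), v)) (num (some (PartrecToTM2.tr (f v)), v))
        (hN _) (hN _) K'.main 1 0 1 0 (by norm_num) (by norm_num)
  | (some TM2.Stmt.halt, v), _ =>
      srule N (num (some TM2.Stmt.halt, v)) (num (none, v))
        (hN _) (hN _) K'.main 1 0 1 0 (by norm_num) (by norm_num)

/-- The vector of a configuration. -/
def encC (C : SCfg) : Fin 5 → ℤ :=
  mk5 (num (C.1, C.2.1) : ℤ) (fun j => (enc (C.2.2 j) : ℤ))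

variable (Q : Set (Option St × Option Γ'))

/-- The states are closed under steps and numbered injectively. -/
structure Closed : Prop where
  inj : Set.InjOn num Q
  step : ∀ C C' : SCfg, (C.1, C.2.1) ∈ Q → C' ∈ sstep C → (C'.1, C'.2.1) ∈ Q

variable {N num hN Q}

theorem state_eq (hQ : Closed num Q) {s t : Option St × Option Γ'} (hs : s ∈ Q) (ht : t ∈ Q)
    (hN : ∀ s, num s < N) {w : ℤ} (h : (num s : ℤ) = num t + N * w) : s = t ∧ w = 0 := by
  have h1 := hN s
  have h2 := hN t
  have h3 : w = 0 := by
    by_contra hw
    rcases lt_or_gt_of_ne hw with h4 | h4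
    · have : (N : ℤ) * w ≤ -N := by nlinarith
      omega
    · have : (N : ℤ) * w ≥ N := by nlinarith
      omega
  subst h3
  refine ⟨hQ.inj hs ht ?_, rfl⟩
  omega

/-- Forward: every small step is given by a rule. -/
theorem exists_rule_of_step (C C' : SCfg) (h : C' ∈ sstep C) :
    ∃ a u, encC num C = (ruleAt N num hN (C.1, C.2.1) a).src u ∧
      encC num C' = (ruleAt N num hN (C.1, C.2.1) a).tgt u := by
  obtain ⟨s, v, S⟩ := C
  simp only at h ⊢
  rcases s with _ | s
  · simp [sstep] at h
  cases s with
  | push k f q =>
    simp only [sstep, Option.mem_def, Option.some.injEq] at h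
    subst h
    refine ⟨none, mk5 0 (fun j => (enc (S j) : ℤ)), ?_, ?_⟩
    · simp only [ruleAt, srule_src, encC]
      apply ext5
      · simp
      · intro j
        simp only [mk5_idx]
        split_ifs <;> simp
    · simp only [ruleAt, srule_tgt, encC]
      apply ext5
      · simp
      · intro j
        simp only [mk5_idx]
        by_cases hj : j = k
        · subst hj
          simp [enc]
          ring
        · simp [hj]
  | peek k f q =>
    simp only [sstep, Option.mem_def, Option.some.injEq] at h
    subst h
    refine ⟨(S k).head?, mk5 0 (fun j => if j = k then (enc (S j).tail : ℤ) else enc (S j)), ?_, ?_⟩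
    · simp only [ruleAt, srule_src, encC]
      apply ext5
      · simp
      · intro j
        simp only [mk5_idx]
        by_cases hj : j = k
        · subst hj
          simp only [if_true]
          rw [enc_eq]
          norm_num
        · simp [hj]
    · simp only [ruleAt, srule_tgt, encC]
      apply ext5
      · simp
      · intro j
        simp only [mk5_idx]
        by_cases hj : j = k
        · subst hj
          simp only [if_true]
          rw [enc_eq]
          norm_num
        · simp [hj]
  | pop k f q =>
    simp only [sstep, Option.mem_def, Option.some.injEq] at h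
    subst h
    refine ⟨(S k).head?, mk5 0 (fun j => if j = k then (enc (S j).tail : ℤ) else enc (S j)), ?_, ?_⟩
    · rcases hk : S k with _ | ⟨g, l⟩
      · simp only [List.head?_nil, ruleAt, srule_src, encC]
        apply ext5
        · simp
        · intro j
          simp only [mk5_idx]
          by_cases hj : j = k
          · subst hj
            simp [hk, enc]
          · simp [hj]
      · simp only [List.head?_cons, ruleAt, srule_src, encC]
        apply ext5
        · simp
        · intro j
          simp only [mk5_idx]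
          by_cases hj : j = k
          · subst hj
            simp [hk, enc]
            ring
          · simp [hj]
    · rcases hk : S k with _ | ⟨g, l⟩
      · simp only [List.head?_nil, ruleAt, srule_tgt, encC]
        apply ext5
        · simp
        · intro j
          simp only [mk5_idx]
          by_cases hj : j = k
          · subst hj
            simp [hk, enc]
          · simp [hj]
      · simp only [List.head?_cons, ruleAt, srule_tgt, encC]
        apply ext5
        · simp
        · intro j
          simp only [mk5_idx]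
          by_cases hj : j = k
          · subst hj
            simp [hk]
          · simp [hj]
  | load f q =>
    simp only [sstep, Option.mem_def, Option.some.injEq] at h
    subst h
    refine ⟨none, mk5 0 (fun j => (enc (S j) : ℤ)), ?_, ?_⟩
    · simp only [ruleAt, srule_src, encC]
      apply ext5
      · simp
      · intro j
        simp only [mk5_idx]
        split_ifs <;> simp
    · simp only [ruleAt, srule_tgt, encC]
      apply ext5
      · simp
      · intro j
        simp only [mk5_idx]
        split_ifs <;> simp
  | branch f q₁ q₂ =>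
    simp only [sstep, Option.mem_def, Option.some.injEq] at h
    subst h
    refine ⟨none, mk5 0 (fun j => (enc (S j) : ℤ)), ?_, ?_⟩
    · simp only [ruleAt, srule_src, encC]
      apply ext5
      · simp
      · intro j
        simp only [mk5_idx]
        split_ifs <;> simp
    · simp only [ruleAt, srule_tgt, encC]
      apply ext5
      · simp
      · intro j
        simp only [mk5_idx]
        split_ifs <;> simp
  | goto f =>
    simp only [sstep, Option.mem_def, Option.some.injEq] at h
    subst h
    refine ⟨none, mk5 0 (fun j => (enc (S j) : ℤ)), ?_, ?_⟩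
    · simp only [ruleAt, srule_src, encC]
      apply ext5
      · simp
      · intro j
        simp only [mk5_idx]
        split_ifs <;> simp
    · simp only [ruleAt, srule_tgt, encC]
      apply ext5
      · simp
      · intro j
        simp only [mk5_idx]
        split_ifs <;> simp
  | halt =>
    simp only [sstep, Option.mem_def, Option.some.injEq] at h
    subst h
    refine ⟨none, mk5 0 (fun j => (enc (S j) : ℤ)), ?_, ?_⟩
    · simp only [ruleAt, srule_src, encC]
      apply ext5
      · simp
      · intro j
        simp only [mk5_idx]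
        split_ifs <;> simp
    · simp only [ruleAt, srule_tgt, encC]
      apply ext5
      · simp
      · intro j
        simp only [mk5_idx]
        split_ifs <;> simp

theorem src_iff {n n' : ℕ} {hn : n < N} {hn' : n' < N} {k : K'} {P A R B : ℕ} {hA : A < P}
    {hB : B < R} (C : SCfg) (u : Fin 5 → ℤ) :
    encC num C = (srule N n n' hn hn' k P A R B hA hB).src u ↔
      (num (C.1, C.2.1) : ℤ) = n + N * u 0 ∧
      ∀ j, (enc (C.2.2 j) : ℤ) = if j = k then (A : ℤ) + P * u (idx j) else u (idx j) := by
  rw [srule_src, encC, mk5_eq]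
  simp only [mk5_zero, mk5_idx]

theorem tgt_iff {n n' : ℕ} {hn : n < N} {hn' : n' < N} {k : K'} {P A R B : ℕ} {hA : A < P}
    {hB : B < R} (C : SCfg) (u : Fin 5 → ℤ) :
    encC num C = (srule N n n' hn hn' k P A R B hA hB).tgt u ↔
      (num (C.1, C.2.1) : ℤ) = n' + N * u 0 ∧
      ∀ j, (enc (C.2.2 j) : ℤ) = if j = k then (B : ℤ) + R * u (idx j) else u (idx j) := by
  rw [srule_tgt, encC, mk5_eq]
  simp only [mk5_zero, mk5_idx]

/-- If the source of a rule is a configuration, so is the target, one step later. -/
theorem forward (hQ : Closed num Q) (st : Option St × Option Γ') (hst : st ∈ Q)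
    (a : Option Γ') (u : Fin 5 → ℤ) (C : SCfg) (hC : (C.1, C.2.1) ∈ Q)
    (h : encC num C = (ruleAt N num hN st a).src u) :
    ∃ C' : SCfg, (C' = C ∨ C' ∈ sstep C) ∧ encC num C' = (ruleAt N num hN st a).tgt u := by
  obtain ⟨s, v⟩ := st
  rcases s with _ | s
  · refine ⟨C, Or.inl rfl, ?_⟩
    rw [h]
    simp only [ruleAt, srule_src, srule_tgt]
  obtain ⟨s', v', S⟩ := C
  cases s with
  | push k f q =>
    simp only [ruleAt] at h ⊢
    rw [src_iff] at h
    obtain ⟨h1, h2⟩ := h
    obtain ⟨h3, h4⟩ := state_eq hQ hC hst hN h1
    simp only [Prod.mk.injEq] at h3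
    obtain ⟨rfl, rfl⟩ := h3
    refine ⟨_, Or.inr rfl, ?_⟩
    rw [tgt_iff]
    refine ⟨by simp [h4], ?_⟩
    intro j
    have h5 := h2 j
    by_cases hj : j = k
    · subst hj
      simp only [if_true] at h5 ⊢
      simp only [Function.update_self, enc]
      push_cast
      rw [h5]
      ring
    · simp only [hj, if_false] at h5 ⊢
      simp only [Function.update_of_ne hj]
      exact h5
  | peek k f q =>
    simp only [ruleAt] at h ⊢
    rw [src_iff] at h
    obtain ⟨h1, h2⟩ := h
    obtain ⟨h3, h4⟩ := state_eq hQ hC hst hN h1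
    simp only [Prod.mk.injEq] at h3
    obtain ⟨rfl, rfl⟩ := h3
    refine ⟨_, Or.inr rfl, ?_⟩
    rw [tgt_iff]
    have h6 := h2 k
    simp only [if_true] at h6
    have h7 := enc_head _ _ _ h6
    refine ⟨by simp [h4, h7], ?_⟩
    intro j
    exact h2 j
  | pop k f q =>
    rcases a with _ | g
    · simp only [ruleAt] at h ⊢
      rw [src_iff] at h
      obtain ⟨h1, h2⟩ := h
      obtain ⟨h3, h4⟩ := state_eq hQ hC hst hN h1
      simp only [Prod.mk.injEq] at h3
      obtain ⟨rfl, rfl⟩ := h3
      refine ⟨_, Or.inr rfl, ?_⟩
      rw [tgt_iff]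
      have h6 := h2 k
      simp only [if_true] at h6
      have h7 := enc_head _ none _ h6
      have h8 : S k = [] := List.head?_eq_none_iff.1 h7
      refine ⟨by simp [h4, h7], ?_⟩
      intro j
      have h9 := h2 j
      by_cases hj : j = k
      · subst hj
        simp only [if_true] at h9 ⊢
        simp only [Function.update_self, h8, List.tail_nil] at h9 ⊢
        exact h9
      · simp only [hj, if_false] at h9 ⊢
        simp only [Function.update_of_ne hj]
        exact h9
    · simp only [ruleAt] at h ⊢
      rw [src_iff] at h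
      obtain ⟨h1, h2⟩ := h
      obtain ⟨h3, h4⟩ := state_eq hQ hC hst hN h1
      simp only [Prod.mk.injEq] at h3
      obtain ⟨rfl, rfl⟩ := h3
      refine ⟨_, Or.inr rfl, ?_⟩
      rw [tgt_iff]
      have h6 := h2 k
      simp only [if_true] at h6
      have h7 := enc_head _ (some g) _ h6
      have h8 := enc_tail _ (some g) _ h6
      refine ⟨by simp [h4, h7], ?_⟩
      intro j
      have h9 := h2 j
      by_cases hj : j = k
      · subst hj
        simp only [if_true] at h9 ⊢
        simp only [Function.update_self]
        rw [h8]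
        push_cast
        ring
      · simp only [hj, if_false] at h9 ⊢
        simp only [Function.update_of_ne hj]
        exact h9
  | load f q =>
    simp only [ruleAt] at h ⊢
    rw [src_iff] at h
    obtain ⟨h1, h2⟩ := h
    obtain ⟨h3, h4⟩ := state_eq hQ hC hst hN h1
    simp only [Prod.mk.injEq] at h3
    obtain ⟨rfl, rfl⟩ := h3
    refine ⟨_, Or.inr rfl, ?_⟩
    rw [tgt_iff]
    exact ⟨by simp [h4], h2⟩
  | branch f q₁ q₂ =>
    simp only [ruleAt] at h ⊢
    rw [src_iff] at h
    obtain ⟨h1, h2⟩ := h
    obtain ⟨h3, h4⟩ := state_eq hQ hC hst hN h1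
    simp only [Prod.mk.injEq] at h3
    obtain ⟨rfl, rfl⟩ := h3
    refine ⟨_, Or.inr rfl, ?_⟩
    rw [tgt_iff]
    exact ⟨by simp [h4], h2⟩
  | goto f =>
    simp only [ruleAt] at h ⊢
    rw [src_iff] at h
    obtain ⟨h1, h2⟩ := h
    obtain ⟨h3, h4⟩ := state_eq hQ hC hst hN h1
    simp only [Prod.mk.injEq] at h3
    obtain ⟨rfl, rfl⟩ := h3
    refine ⟨_, Or.inr rfl, ?_⟩
    rw [tgt_iff]
    exact ⟨by simp [h4], h2⟩
  | halt =>
    simp only [ruleAt] at h ⊢
    rw [src_iff] at h
    obtain ⟨h1, h2⟩ := h
    obtain ⟨h3, h4⟩ := state_eq hQ hC hst hN h1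
    simp only [Prod.mk.injEq] at h3
    obtain ⟨rfl, rfl⟩ := h3
    refine ⟨_, Or.inr rfl, ?_⟩
    rw [tgt_iff]
    exact ⟨by simp [h4], h2⟩

/-- If the target of a rule is a configuration, so is the source, one step before. -/
theorem backward (hQ : Closed num Q) (st : Option St × Option Γ') (hst : st ∈ Q)
    (a : Option Γ') (u : Fin 5 → ℤ) (C' : SCfg) (hC : (C'.1, C'.2.1) ∈ Q)
    (h : encC num C' = (ruleAt N num hN st a).tgt u) :
    ∃ C : SCfg, (C.1, C.2.1) ∈ Q ∧ (C' = C ∨ C' ∈ sstep C) ∧
      encC num C = (ruleAt N num hN st a).src u := by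
  obtain ⟨s, v⟩ := st
  rcases s with _ | s
  · refine ⟨C', hC, Or.inl rfl, ?_⟩
    rw [h]
    simp only [ruleAt, srule_src, srule_tgt]
  obtain ⟨s', v', S⟩ := C'
  cases s with
  | push k f q =>
    simp only [ruleAt] at h ⊢
    rw [tgt_iff] at h
    obtain ⟨h1, h2⟩ := h
    have h6 := h2 k
    simp only [if_true] at h6
    have h7 := enc_head _ (some (f v)) _ h6
    have h8 := enc_tail _ (some (f v)) _ h6
    have h9 : S k = f v :: (S k).tail := by
      rcases hS : S k with _ | ⟨b, l⟩
      · rw [hS] at h7
        simp at h7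
      · rw [hS] at h7
        simp only [List.head?_cons, Option.some.injEq] at h7
        rw [h7]
        rfl
    have h10 : sstep (some (TM2.Stmt.push k f q), v, Function.update S k (S k).tail) =
        some (some q, v, S) := by
      simp only [sstep, Function.update_self, Function.update_idem]
      rw [← h9, Function.update_eq_self]
    have ht := hQ.step _ _ hst h10
    obtain ⟨h3, h4⟩ := state_eq hQ hC ht hN h1
    simp only [Prod.mk.injEq] at h3
    obtain ⟨rfl, rfl⟩ := h3
    refine ⟨_, hst, Or.inr h10, ?_⟩
    rw [src_iff]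
    refine ⟨by simp [h4], ?_⟩
    intro j
    have h5 := h2 j
    by_cases hj : j = k
    · subst hj
      simp only [if_true, Function.update_self]
      rw [h8]
      simp
    · simp only [hj, if_false] at h5 ⊢
      simp only [Function.update_of_ne hj]
      exact h5
  | peek k f q =>
    simp only [ruleAt] at h ⊢
    rw [tgt_iff] at h
    obtain ⟨h1, h2⟩ := h
    have h6 := h2 k
    simp only [if_true] at h6
    have h7 := enc_head _ a _ h6
    have h10 : sstep (some (TM2.Stmt.peek k f q), v, S) = some (some q, f v a, S) := by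
      simp only [sstep, h7]
    have ht := hQ.step _ _ hst h10
    obtain ⟨h3, h4⟩ := state_eq hQ hC ht hN h1
    simp only [Prod.mk.injEq] at h3
    obtain ⟨rfl, rfl⟩ := h3
    refine ⟨_, hst, Or.inr h10, ?_⟩
    rw [src_iff]
    exact ⟨by simp [h4], h2⟩
  | pop k f q =>
    rcases a with _ | g
    · simp only [ruleAt] at h ⊢
      rw [tgt_iff] at h
      obtain ⟨h1, h2⟩ := h
      have h6 := h2 k
      simp only [if_true] at h6
      have h7 := enc_head _ none _ h6
      have h8 : S k = [] := List.head?_eq_none_iff.1 h7
      have h10 : sstep (some (TM2.Stmt.pop k f q), v, S) = some (some q, f v none, S) := by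
        simp only [sstep, h7]
        rw [h8, List.tail_nil, ← h8, Function.update_eq_self]
      have ht := hQ.step _ _ hst h10
      obtain ⟨h3, h4⟩ := state_eq hQ hC ht hN h1
      simp only [Prod.mk.injEq] at h3
      obtain ⟨rfl, rfl⟩ := h3
      refine ⟨_, hst, Or.inr h10, ?_⟩
      rw [src_iff]
      exact ⟨by simp [h4], h2⟩
    · simp only [ruleAt] at h ⊢
      rw [tgt_iff] at h
      obtain ⟨h1, h2⟩ := h
      have h10 : sstep (some (TM2.Stmt.pop k f q), v, Function.update S k (g :: S k)) =
          some (some q, f v (some g), S) := by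
        simp only [sstep, Function.update_self, Function.update_idem, List.head?_cons,
          List.tail_cons, Function.update_eq_self]
      have ht := hQ.step _ _ hst h10
      obtain ⟨h3, h4⟩ := state_eq hQ hC ht hN h1
      simp only [Prod.mk.injEq] at h3
      obtain ⟨rfl, rfl⟩ := h3
      refine ⟨_, hst, Or.inr h10, ?_⟩
      rw [src_iff]
      refine ⟨by simp [h4], ?_⟩
      intro j
      have h5 := h2 j
      by_cases hj : j = k
      · subst hj
        simp only [if_true, Function.update_self] at h5 ⊢
        simp only [enc]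
        push_cast at h5 ⊢
        rw [h5]
        ring
      · simp only [hj, if_false] at h5 ⊢
        simp only [Function.update_of_ne hj]
        exact h5
  | load f q =>
    simp only [ruleAt] at h ⊢
    rw [tgt_iff] at h
    obtain ⟨h1, h2⟩ := h
    have h10 : sstep (some (TM2.Stmt.load f q), v, S) = some (some q, f v, S) := rfl
    have ht := hQ.step _ _ hst h10
    obtain ⟨h3, h4⟩ := state_eq hQ hC ht hN h1
    simp only [Prod.mk.injEq] at h3
    obtain ⟨rfl, rfl⟩ := h3
    refine ⟨_, hst, Or.inr h10, ?_⟩
    rw [src_iff]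
    exact ⟨by simp [h4], h2⟩
  | branch f q₁ q₂ =>
    simp only [ruleAt] at h ⊢
    rw [tgt_iff] at h
    obtain ⟨h1, h2⟩ := h
    have h10 : sstep (some (TM2.Stmt.branch f q₁ q₂), v, S) =
        some (some (cond (f v) q₁ q₂), v, S) := rfl
    have ht := hQ.step _ _ hst h10
    obtain ⟨h3, h4⟩ := state_eq hQ hC ht hN h1
    simp only [Prod.mk.injEq] at h3
    obtain ⟨rfl, rfl⟩ := h3
    refine ⟨_, hst, Or.inr h10, ?_⟩
    rw [src_iff]
    exact ⟨by simp [h4], h2⟩
  | goto f =>
    simp only [ruleAt] at h ⊢
    rw [tgt_iff] at h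
    obtain ⟨h1, h2⟩ := h
    have h10 : sstep (some (TM2.Stmt.goto f), v, S) =
        some (some (PartrecToTM2.tr (f v)), v, S) := rfl
    have ht := hQ.step _ _ hst h10
    obtain ⟨h3, h4⟩ := state_eq hQ hC ht hN h1
    simp only [Prod.mk.injEq] at h3
    obtain ⟨rfl, rfl⟩ := h3
    refine ⟨_, hst, Or.inr h10, ?_⟩
    rw [src_iff]
    exact ⟨by simp [h4], h2⟩
  | halt =>
    simp only [ruleAt] at h ⊢
    rw [tgt_iff] at h
    obtain ⟨h1, h2⟩ := h
    have h10 : sstep (some TM2.Stmt.halt, v, S) = some (none, v, S) := rfl
    have ht := hQ.step _ _ hst h10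
    obtain ⟨h3, h4⟩ := state_eq hQ hC ht hN h1
    simp only [Prod.mk.injEq] at h3
    obtain ⟨rfl, rfl⟩ := h3
    refine ⟨_, hst, Or.inr h10, ?_⟩
    rw [src_iff]
    exact ⟨by simp [h4], h2⟩

end family

end Pool.Agent.NB
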