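import Pool.Agent.NB.Pattern

/-!
# Novikov-Boone: outside an invariant set the word has infinite order
-/

namespace Pool.Agent.NB

variable {d m : ℕ}

theorem map_disp {G H : Type*} [Group G] [Group H] (f : G →* H) (x : Fin d → G)
    (c : Fin d → ℤ) : f (disp x c) = disp (fun i => f (x i)) c := by
  unfold disp
  rw [map_list_prod, List.map_ofFn]
  congr 2
  funext i
  simp

theorem emb_bijective (p : Fin d → ℕ) (hp : ∀ i, 0 < p i) :
    Function.Bijective (fun z : (∀ i, Fin (p i)) × (Fin d → ℤ) => emb p z.1 z.2) := by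
  constructor
  · rintro ⟨a, u⟩ ⟨b, v⟩ h
    have h1 : ∀ i, ((a i : ℕ) : ℤ) + (p i : ℤ) * u i = ((b i : ℕ) : ℤ) + (p i : ℤ) * v i :=
      fun i => congrFun h i
    have h2 : ∀ i, a i = b i := by
      intro i
      have ha := (a i).isLt
      have hb := (b i).isLt
      have h3 : (((a i : ℕ) : ℤ) + (p i : ℤ) * u i) % (p i : ℤ) =
          (((b i : ℕ) : ℤ) + (p i : ℤ) * v i) % (p i : ℤ) := by rw [h1 i]
      rw [Int.add_mul_emod_self_left, Int.add_mul_emod_self_left,
        Int.emod_eq_of_lt (by positivity) (by exact_mod_cast ha),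
        Int.emod_eq_of_lt (by positivity) (by exact_mod_cast hb)] at h3
      exact Fin.ext (by exact_mod_cast h3)
    have h4 : ∀ i, u i = v i := by
      intro i
      have h5 := h1 i
      rw [h2 i] at h5
      have h6 : (p i : ℤ) * u i = (p i : ℤ) * v i := by linarith
      have h7 : (p i : ℤ) ≠ 0 := by exact_mod_cast (hp i).ne'
      exact mul_left_cancel₀ h7 h6
    exact Prod.ext (funext h2) (funext h4)
  · intro v
    refine ⟨⟨fun i => ⟨(v i % (p i : ℤ)).toNat, ?_⟩, fun i => v i / (p i : ℤ)⟩, ?_⟩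
    · have h1 : (0 : ℤ) < (p i : ℤ) := by exact_mod_cast hp i
      have h2 := Int.emod_nonneg (v i) h1.ne'
      have h3 := Int.emod_lt_of_pos (v i) h1
      omega
    · funext i
      have h1 : (0 : ℤ) < (p i : ℤ) := by exact_mod_cast hp i
      have h2 := Int.emod_nonneg (v i) h1.ne'
      simp only [emb]
      rw [Int.toNat_of_nonneg h2]
      exact Int.emod_add_mul_ediv (v i) (p i : ℤ)

/-- Residue and quotient. -/
noncomputable def box (p : Fin d → ℕ) (hp : ∀ i, 0 < p i) :
    ((∀ i, Fin (p i)) × (Fin d → ℤ)) ≃ (Fin d → ℤ) :=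
  Equiv.ofBijective _ (emb_bijective p hp)

/-- Exchange of factors. -/
def shuffle (A B C : Type*) : (A × B) × C ≃ (A × C) × B where
  toFun z := ((z.1.1, z.2), z.1.2)
  invFun z := ((z.1.1, z.2), z.1.2)
  left_inv _ := rfl
  right_inv _ := rfl

/-- The points of the model: a place and a sheet. -/
abbrev Pt (d : ℕ) := (Fin d → ℤ) × Idx d

/-- The coloured points. -/
def Col (d : ℕ) : Set (Pt d) := {z | z.1 ∈ z.2.1}

/-- The permutation of the points given by a bijection of residue classes and sheets. -/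
noncomputable def sheetPerm (p q : Fin d → ℕ) (hp : ∀ i, 0 < p i) (hq : ∀ i, 0 < q i)
    (e : ((∀ i, Fin (p i)) × Idx d) ≃ ((∀ i, Fin (q i)) × Idx d)) : Equiv.Perm (Pt d) :=
  ((Equiv.prodCongr (box p hp).symm (Equiv.refl (Idx d))).trans
    (shuffle _ _ _)).trans
    ((Equiv.prodCongr e (Equiv.refl _)).trans
      ((shuffle _ _ _).trans (Equiv.prodCongr (box q hq) (Equiv.refl (Idx d)))))

theorem sheetPerm_apply (p q : Fin d → ℕ) (hp : ∀ i, 0 < p i) (hq : ∀ i, 0 < q i)
    (e : ((∀ i, Fin (p i)) × Idx d) ≃ ((∀ i, Fin (q i)) × Idx d)) (a : ∀ i, Fin (p i))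
    (u : Fin d → ℤ) (i : Idx d) :
    sheetPerm p q hp hq e (emb p a u, i) = (emb q (e (a, i)).1 u, (e (a, i)).2) := by
  have h : (box p hp).symm (emb p a u) = (a, u) := by
    rw [Equiv.symm_apply_eq]
    rfl
  simp only [sheetPerm, Equiv.trans_apply, Equiv.prodCongr_apply, Prod.map_apply, h]
  rfl

theorem exists_emb (p : Fin d → ℕ) (hp : ∀ i, 0 < p i) (v : Fin d → ℤ) :
    ∃ a u, v = emb p a u := by
  obtain ⟨⟨a, u⟩, h⟩ := (emb_bijective p hp).2 v
  exact ⟨a, u, h.symm⟩

theorem emb_add (p : Fin d → ℕ) (a : ∀ i, Fin (p i)) (u w : Fin d → ℤ) :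
    emb p a u + (fun i => (p i : ℤ) * w i) = emb p a (u + w) := by
  funext i
  simp only [emb, Pi.add_apply]
  ring

/-- The permutation attached to a rule and an invariant set. -/
theorem exists_sheetPerm (r : Rule d) (Y : Set (Fin d → ℤ))
    (hY : ∀ u, r.src u ∈ Y ↔ r.tgt u ∈ Y) (l : ℕ → Set (Fin d → ℤ)) :
    ∃ s : Equiv.Perm (Pt d),
      (∀ (v w : Fin d → ℤ) (i : Idx d), s (v + (fun j => (r.p j : ℤ) * w j), i) =
        ((s (v, i)).1 + (fun j => (r.q j : ℤ) * w j), (s (v, i)).2)) ∧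
      (∀ z, s z ∈ Col d ↔ z ∈ Col d) ∧
      s ((fun j => (r.a j : ℤ)), (Y, l)) = ((fun j => (r.b j : ℤ)), (Y, l)) := by
  have hp : ∀ i, 0 < r.p i := fun i => (Nat.zero_le _).trans_lt (r.ha i)
  have hq : ∀ i, 0 < r.q i := fun i => (Nat.zero_le _).trans_lt (r.hb i)
  let a0 : ∀ i, Fin (r.p i) := fun i => ⟨r.a i, r.ha i⟩
  let b0 : ∀ i, Fin (r.q i) := fun i => ⟨r.b i, r.hb i⟩
  have hpat : pat r.p a0 Y = pat r.q b0 Y := by
    ext u
    exact hY u
  obtain ⟨e, he1, he2⟩ := exists_pattern_equiv r.p r.q a0 b0 (Y, l) (Y, l) hpat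
  refine ⟨sheetPerm r.p r.q hp hq e, ?_, ?_, ?_⟩
  · intro v w i
    obtain ⟨a, u, rfl⟩ := exists_emb r.p hp v
    rw [emb_add, sheetPerm_apply, sheetPerm_apply, ← emb_add]
  · rintro ⟨v, i⟩
    obtain ⟨a, u, rfl⟩ := exists_emb r.p hp v
    rw [sheetPerm_apply]
    have h1 := he1 (a, i)
    have h2 : u ∈ pat r.q (e (a, i)).1 (e (a, i)).2.1 ↔ u ∈ pat r.p a i.1 := by rw [h1]
    exact h2
  · have h1 : (fun j => (r.a j : ℤ)) = emb r.p a0 0 := by
      funext j
      simp [emb, a0]
    have h2 : (fun j => (r.b j : ℤ)) = emb r.q b0 0 := by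
      funext j
      simp [emb, b0]
    rw [h1, sheetPerm_apply, he2, h2]

/-- Translation of the points. -/
def tr (c : Fin d → ℤ) : Equiv.Perm (Pt d) :=
  (Equiv.addRight c).prodCongr (Equiv.refl _)

@[simp] theorem tr_apply (c v : Fin d → ℤ) (i : Idx d) : tr c (v, i) = (v + c, i) := rfl

/-- Translations as a homomorphism. -/
def trHom (d : ℕ) : Multiplicative (Fin d → ℤ) →* Equiv.Perm (Pt d) where
  toFun c := tr c.toAdd
  map_one' := by
    ext z <;> simp [tr]
  map_mul' a b := by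
    refine Equiv.ext ?_
    rintro ⟨v, i⟩
    simp only [tr_apply, toAdd_mul, Equiv.Perm.mul_apply]
    congr 1
    abel

theorem disp_tr (c : Fin d → ℤ) :
    disp (fun i => tr (Pi.single i (1 : ℤ))) c = (tr c : Equiv.Perm (Pt d)) := by
  have h := map_disp (trHom d)
    (fun i => Multiplicative.ofAdd (Pi.single i (1 : ℤ) : Fin d → ℤ)) c
  have h2 : disp (fun i => Multiplicative.ofAdd (Pi.single i (1 : ℤ) : Fin d → ℤ)) c =
      Multiplicative.ofAdd c := by
    unfold disp
    rw [List.prod_ofFn]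
    simp only [← ofAdd_zsmul]
    rw [← ofAdd_sum]
    congr 1
    funext j
    simp [Finset.sum_apply, Pi.single_apply]
  rw [h2] at h
  exact h.symm

theorem tr_add (a b : Fin d → ℤ) : (tr (a + b) : Equiv.Perm (Pt d)) = tr a * tr b :=
  (trHom d).map_mul (Multiplicative.ofAdd a) (Multiplicative.ofAdd b)

theorem tr_comm (a b : Fin d → ℤ) : (tr a : Equiv.Perm (Pt d)) * tr b = tr b * tr a := by
  rw [← tr_add, ← tr_add, add_comm]

theorem tr_inv_apply (c v : Fin d → ℤ) (i : Idx d) : (tr c)⁻¹ (v, i) = (v - c, i) := by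
  rw [Equiv.Perm.inv_eq_iff_eq]
  simp

theorem tr_single_pow (i : Fin d) (n : ℕ) :
    (tr (Pi.single i (1 : ℤ)) : Equiv.Perm (Pt d)) ^ n = tr (Pi.single i (n : ℤ)) := by
  have h := (trHom d).map_pow (Multiplicative.ofAdd (Pi.single i (1 : ℤ) : Fin d → ℤ)) n
  rw [← ofAdd_nsmul] at h
  have h2 : n • (Pi.single i (1 : ℤ) : Fin d → ℤ) = Pi.single i (n : ℤ) := by
    rw [← Pi.single_smul]
    simp
  rw [h2] at h
  exact h.symm

/-- The space on which the group acts. -/
abbrev Sp (d : ℕ) := (Pt d × Bool) × ℤ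

/-- A permutation of the points acting on the whole space. -/
def up (d : ℕ) : Equiv.Perm (Pt d) →* Equiv.Perm (Sp d) where
  toFun s := (s.prodCongr (Equiv.refl Bool)).prodCongr (Equiv.refl ℤ)
  map_one' := rfl
  map_mul' _ _ := rfl

@[simp] theorem up_apply (s : Equiv.Perm (Pt d)) (z : Pt d) (b : Bool) (n : ℤ) :
    up d s ((z, b), n) = ((s z, b), n) := rfl

open Classical in
/-- The swap of the two copies off the coloured points. -/
noncomputable def tP (d : ℕ) : Equiv.Perm (Sp d) :=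
  Function.Involutive.toPerm (fun z => if z.1.1 ∈ Col d then z else ((z.1.1, !z.1.2), z.2)) (by
    intro z
    by_cases h : z.1.1 ∈ Col d <;> simp [h])

open Classical in
theorem tP_apply (z : Pt d) (b : Bool) (n : ℤ) :
    tP d ((z, b), n) = if z ∈ Col d then ((z, b), n) else ((z, !b), n) := rfl

open Classical in
/-- The shift over one point. -/
noncomputable def kP (x : Pt d × Bool) : Equiv.Perm (Sp d) where
  toFun z := if z.1 = x then (z.1, z.2 + 1) else z
  invFun z := if z.1 = x then (z.1, z.2 - 1) else z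
  left_inv z := by
    by_cases h : z.1 = x
    · subst h
      simp
    · simp [h]
  right_inv z := by
    by_cases h : z.1 = x
    · subst h
      simp
    · simp [h]

theorem kP_self (x : Pt d × Bool) (n : ℤ) : kP x (x, n) = (x, n + 1) := by
  simp [kP]

theorem kP_of_ne (x y : Pt d × Bool) (h : y ≠ x) (n : ℤ) : kP x (y, n) = (y, n) := by
  simp [kP, h]

theorem kP_inv_of_ne (x y : Pt d × Bool) (h : y ≠ x) (n : ℤ) : (kP x)⁻¹ (y, n) = (y, n) := by
  rw [Equiv.Perm.inv_eq_iff_eq, kP_of_ne x y h]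

theorem cm_eq_one_iff {G : Type*} [Group G] (a b : G) : cm a b = 1 ↔ a * b = b * a := by
  unfold cm
  rw [mul_inv_eq_one, mul_inv_eq_iff_eq_mul]

theorem kP_comm (x : Pt d × Bool) (g : Equiv.Perm (Sp d)) (hg : ∀ n, g (x, n) = (x, n))
    (hg2 : ∀ y n, (g (y, n)).2 = n) : kP x * g = g * kP x := by
  refine Equiv.ext ?_
  rintro ⟨y, n⟩
  simp only [Equiv.Perm.mul_apply]
  by_cases h : y = x
  · subst h
    rw [hg, kP_self, hg]
  · have h2 : (g (y, n)).1 ≠ x := by
      intro h3
      have h4 : g (y, n) = (x, n) := Prod.ext h3 (hg2 y n)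
      rw [← hg n] at h4
      have h5 := g.injective h4
      exact h (congrArg Prod.fst h5)
    rw [kP_of_ne x y h]
    have h6 : g (y, n) = ((g (y, n)).1, (g (y, n)).2) := rfl
    rw [h6, kP_of_ne _ _ h2]

theorem word_not_finOrder (R : Fin m → Rule d) (Y : Set (Fin d → ℤ))
    (hY : ∀ j u, (R j).src u ∈ Y ↔ (R j).tgt u ∈ Y) (h0 : (0 : Fin d → ℤ) ∈ Y)
    (c : Fin d → ℤ) (hc : c ∉ Y) : ¬ IsOfFinOrder (PresentedGroup.mk (rels R) (W c)) := by
  classical
  let l : ℕ → Set (Fin d → ℤ) := fun _ => ∅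
  have hs := fun j => exists_sheetPerm (R j) Y (hY j) l
  choose s hs1 hs2 hs3 using hs
  let va : Fin m → (Fin d → ℤ) := fun j i => ((R j).a i : ℤ)
  let vb : Fin m → (Fin d → ℤ) := fun j i => ((R j).b i : ℤ)
  let ρ : Fin m → Equiv.Perm (Pt d) := fun j => (tr (vb j))⁻¹ * s j * tr (va j)
  let x0 : Pt d := (0, (Y, l))
  let f : Gen d m → Equiv.Perm (Sp d) := fun g => match g with
    | Gen.x i => up d (tr (Pi.single i 1))
    | Gen.r j => up d (ρ j)
    | Gen.t => tP d
    | Gen.k => kP (x0, false)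
  have hX : ∀ i, FreeGroup.lift f (X i) = up d (tr (Pi.single i 1)) := fun i => by
    simp [X, f]
  have hL : ∀ j, FreeGroup.lift f (L j) = up d (ρ j) := fun j => by simp [L, f]
  have hT : FreeGroup.lift f (T : FreeGroup (Gen d m)) = tP d := by simp [T, f]
  have hK : FreeGroup.lift f (K : FreeGroup (Gen d m)) = kP (x0, false) := by simp [K, f]
  have hD : ∀ v : Fin d → ℤ, FreeGroup.lift f (D v : FreeGroup (Gen d m)) = up d (tr v) := by
    intro v
    rw [D, map_disp]
    simp only [hX]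
    rw [← map_disp (up d), disp_tr]
  have hcm : ∀ a b : FreeGroup (Gen d m), FreeGroup.lift f (cm a b) =
      cm (FreeGroup.lift f a) (FreeGroup.lift f b) := by
    intro a b
    simp [cm]
  -- the point `x0` is fixed by the `ρ j`
  have hρ0 : ∀ j, ρ j x0 = x0 := by
    intro j
    simp only [ρ, x0, Equiv.Perm.mul_apply, tr_apply, zero_add]
    rw [hs3 j, tr_inv_apply, sub_self]
  have hcol0 : x0 ∈ Col d := h0
  have hrel : ∀ r ∈ rels R, FreeGroup.lift f r = 1 := by
    intro r hr
    rcases hr with (((hr | hr) | hr) | hr) | hr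
    · obtain ⟨⟨i, j⟩, rfl⟩ := hr
      simp only [hcm, hX]
      rw [cm_eq_one_iff, ← map_mul, tr_comm, map_mul]
    · obtain ⟨⟨i, j⟩, rfl⟩ := hr
      simp only [map_mul, map_inv, map_pow, hX, hL]
      rw [mul_inv_eq_one, ← map_pow, ← map_pow, ← map_mul, ← map_mul]
      congr 1
      rw [tr_single_pow, tr_single_pow]
      refine Equiv.ext ?_
      rintro ⟨v, z⟩
      simp only [ρ, Equiv.Perm.mul_apply, tr_apply]
      have h1 : (Pi.single i ((R j).p i : ℤ) : Fin d → ℤ) =
          fun k => ((R j).p k : ℤ) * (Pi.single i (1 : ℤ) : Fin d → ℤ) k := by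
        funext k
        by_cases hk : k = i
        · subst hk; simp
        · simp [hk]
      have h2 : (Pi.single i ((R j).q i : ℤ) : Fin d → ℤ) =
          fun k => ((R j).q k : ℤ) * (Pi.single i (1 : ℤ) : Fin d → ℤ) k := by
        funext k
        by_cases hk : k = i
        · subst hk; simp
        · simp [hk]
      have h3 : v + Pi.single i ((R j).p i : ℤ) + va j =
          (v + va j) + fun k => ((R j).p k : ℤ) * (Pi.single i (1 : ℤ) : Fin d → ℤ) k := by
        rw [h1]; abel
      rw [h3, hs1]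
      have h4 : ∀ w : Pt d, (tr (vb j))⁻¹ w = (w.1 - vb j, w.2) := fun w => tr_inv_apply _ _ _
      rw [h4, h4]
      simp only [tr_apply]
      refine Prod.ext ?_ rfl
      simp only
      rw [h2]
      abel
    · obtain ⟨j, rfl⟩ := hr
      simp only [hcm, hT, map_mul, map_inv, hD, hL]
      have h1 : up d (tr fun i => ((R j).b i : ℤ)) * up d (ρ j) *
          (up d (tr fun i => ((R j).a i : ℤ)))⁻¹ = up d (s j) := by
        rw [← map_inv, ← map_mul, ← map_mul]
        congr 1
        simp only [ρ, va, vb]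
        group
      rw [h1, cm_eq_one_iff]
      refine Equiv.ext ?_
      rintro ⟨⟨z, b⟩, n⟩
      simp only [Equiv.Perm.mul_apply, up_apply, tP_apply]
      by_cases hz : z ∈ Col d
      · rw [if_pos hz, if_pos ((hs2 j z).2 hz)]
        rfl
      · rw [if_neg hz, if_neg (fun h => hz ((hs2 j z).1 h))]
        rfl
    · obtain ⟨j, rfl⟩ := hr
      simp only [hcm, hK, hL]
      rw [cm_eq_one_iff]
      apply kP_comm
      · intro n
        rw [up_apply, hρ0]
      · rintro ⟨z, b⟩ n
        rfl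
    · rw [Set.mem_singleton_iff] at hr
      subst hr
      rw [hcm, hK, hT, cm_eq_one_iff]
      apply kP_comm
      · intro n
        rw [tP_apply, if_pos hcol0]
      · rintro ⟨z, b⟩ n
        rw [tP_apply]
        split_ifs <;> rfl
  -- the homomorphism
  let F : PresentedGroup (rels R) →* Equiv.Perm (Sp d) := PresentedGroup.toGroup hrel
  have hF : ∀ w : FreeGroup (Gen d m), F (PresentedGroup.mk (rels R) w) = FreeGroup.lift f w := by
    intro w
    rfl
  intro hfin
  have hfin2 : IsOfFinOrder (F (PresentedGroup.mk (rels R) (W c))) := F.isOfFinOrder hfin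
  rw [hF] at hfin2
  -- the conjugate of `t` moves the base point
  let g : Equiv.Perm (Sp d) := (up d (tr c))⁻¹ * tP d * up d (tr c)
  have hW : FreeGroup.lift f (W c : FreeGroup (Gen d m)) = cm (kP (x0, false)) g := by
    simp only [W, Tc, hcm, hK, map_mul, map_inv, hD, hT, g]
  have hcx : (c, (Y, l)) ∉ Col d := hc
  have hg : ∀ n b, g ((x0, b), n) = ((x0, !b), n) := by
    intro n b
    simp only [g, Equiv.Perm.mul_apply, up_apply]
    have h1 : tr c x0 = (c, (Y, l)) := by
      simp [x0]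
    rw [h1, tP_apply, if_neg hcx, ← map_inv, up_apply, tr_inv_apply, sub_self]
  have hginv : ∀ n b, g⁻¹ ((x0, b), n) = ((x0, !b), n) := by
    intro n b
    rw [Equiv.Perm.inv_eq_iff_eq, hg, Bool.not_not]
  have hstep : ∀ n, cm (kP (x0, false)) g ((x0, false), n) = ((x0, false), n + 1) := by
    intro n
    simp only [cm, Equiv.Perm.mul_apply]
    rw [hginv, kP_inv_of_ne _ _ (by simp), hg, Bool.not_false, Bool.not_true, kP_self]
  have hpow : ∀ (k : ℕ) n, (cm (kP (x0, false)) g ^ k) ((x0, false), n) =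
      ((x0, false), n + k) := by
    intro k
    induction k with
    | zero => intro n; simp
    | succ k ih =>
      intro n
      rw [pow_succ, Equiv.Perm.mul_apply, hstep, ih]
      congr 1
      push_cast
      ring
  rw [hW] at hfin2
  obtain ⟨k, hk, hk2⟩ := hfin2.exists_pow_eq_one
  have h1 := hpow k 0
  rw [hk2] at h1
  simp only [Equiv.Perm.coe_one, id_eq, zero_add, Prod.mk.injEq, true_and] at h1
  omega

end Pool.Agent.NB
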