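import Pool.Agent.NB.Defs

/-!
# Novikov-Boone: the pattern bijection

PROOF. For each pattern `A` the fibre `{z : Box p × Idx d // pat p z.1 z.2.1 = A}` is equivalent to
`ℕ → Set (Fin d → ℤ)` by Cantor-Bernstein (`Function.Embedding.antisymm`), or with cardinals:
it injects into `Box p × Set (Fin d → ℤ) × (ℕ → Set (Fin d → ℤ))`, which has the cardinality of
`ℕ → Set (Fin d → ℤ)` (`Box p` is finite), and it contains a copy of `ℕ → Set (Fin d → ℤ)` since
some `(a, B)` has pattern `A`: take `a = 0` and `B = {v | ∃ u ∈ A, v = emb p a u}` (`emb p a` is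
injective since `0 < p i`). So the fibres over `A` of both sides are equivalent, and
`Equiv.ofFiberEquiv` gives a pattern preserving equivalence; in the fibre of `(a0, i0)` change it
by a swap (`Equiv.setValue`, or swap `e (a0, i0)` and `(b0, j0)` after `e`: both have the same
pattern) to get `e (a0, i0) = (b0, j0)`.
-/

namespace Pool.Agent.NB

/-- The place `a + p u`. -/
def emb {d : ℕ} (p : Fin d → ℕ) (a : ∀ i, Fin (p i)) (u : Fin d → ℤ) : Fin d → ℤ :=
  fun i => ((a i : ℕ) : ℤ) + (p i : ℤ) * u i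

/-- The trace of the set `B` on the residue class of `a`. -/
def pat {d : ℕ} (p : Fin d → ℕ) (a : ∀ i, Fin (p i)) (B : Set (Fin d → ℤ)) : Set (Fin d → ℤ) :=
  {u | emb p a u ∈ B}

/-- The index type of the sheets: a pattern and a label. -/
abbrev Idx (d : ℕ) := Set (Fin d → ℤ) × (ℕ → Set (Fin d → ℤ))

theorem emb_injective {d : ℕ} (p : Fin d → ℕ) (a : ∀ i, Fin (p i)) :
    Function.Injective (emb p a) := by
  intro u v h
  funext i
  have hi := congrFun h i
  simp only [emb] at hi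
  have hp : (p i : ℤ) ≠ 0 := by
    have : 0 < p i := lt_of_le_of_lt (Nat.zero_le _) (a i).2
    exact_mod_cast this.ne'
  have h2 : (p i : ℤ) * u i = (p i : ℤ) * v i := by linarith
  exact mul_left_cancel₀ hp h2

/-- A fibre of the pattern map injects into the label sequences. -/
theorem exists_fibre_inj {d : ℕ} (p : Fin d → ℕ) (A : Set (Fin d → ℤ)) :
    ∃ f : {z : (∀ i, Fin (p i)) × Idx d // pat p z.1 z.2.1 = A} → (ℕ → Set (Fin d → ℤ)),
      Function.Injective f := by
  obtain ⟨c, hc⟩ := exists_injective_nat (∀ i, Fin (p i))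
  refine ⟨fun z n => if n % 2 = 0 then z.1.2.2 (n / 2) else
    if n = 1 then z.1.2.1 else if n / 2 = c z.1.1 + 1 then Set.univ else ∅, ?_⟩
  rintro ⟨⟨a, B, F⟩, hz⟩ ⟨⟨a', B', F'⟩, hz'⟩ h
  have hF : F = F' := by
    funext k
    have hk := congrFun h (2 * k)
    have h1 : (2 * k) % 2 = 0 := by omega
    have h2 : (2 * k) / 2 = k := by omega
    simpa [h1, h2] using hk
  have hB : B = B' := by
    have hk := congrFun h 1
    simpa using hk
  have ha : a = a' := by
    apply hc
    have hk := congrFun h (2 * (c a + 1) + 1)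
    have h1 : (2 * (c a + 1) + 1) % 2 ≠ 0 := by omega
    have h2 : (2 * (c a + 1) + 1) / 2 = c a + 1 := by omega
    have h3 : (2 * (c a + 1) + 1) ≠ 1 := by omega
    simp only [if_neg h1, if_neg h3, h2] at hk
    by_contra hne
    have hne2 : ¬ (c a + 1 = c a' + 1) := fun e => hne (by omega)
    rw [if_pos trivial, if_neg hne2] at hk
    have : (fun _ => 0 : Fin d → ℤ) ∈ (∅ : Set (Fin d → ℤ)) := by
      rw [← hk]; exact Set.mem_univ _
    exact this
  subst hF hB ha
  rfl

/-- The label sequences inject into each fibre of the pattern map. -/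
theorem exists_inj_fibre {d : ℕ} (q : Fin d → ℕ) (b0 : ∀ i, Fin (q i)) (A : Set (Fin d → ℤ)) :
    ∃ f : (ℕ → Set (Fin d → ℤ)) → {z : (∀ i, Fin (q i)) × Idx d // pat q z.1 z.2.1 = A},
      Function.Injective f := by
  refine ⟨fun F => ⟨(b0, ({v | ∃ u ∈ A, v = emb q b0 u}, F)), ?_⟩, ?_⟩
  · ext u
    simp only [pat, Set.mem_ofPred_eq]
    constructor
    · rintro ⟨w, hw, he⟩
      rw [emb_injective q b0 he]
      exact hw
    · intro hu
      exact ⟨u, hu, rfl⟩
  · intro F F' h
    have := congrArg (fun z => z.1.2.2) h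
    exact this

theorem exists_pattern_equiv {d : ℕ} (p q : Fin d → ℕ) (a0 : ∀ i, Fin (p i)) (b0 : ∀ i, Fin (q i))
    (i0 j0 : Idx d) (h : pat p a0 i0.1 = pat q b0 j0.1) :
    ∃ e : ((∀ i, Fin (p i)) × Idx d) ≃ ((∀ i, Fin (q i)) × Idx d),
      (∀ z, pat q (e z).1 (e z).2.1 = pat p z.1 z.2.1) ∧ e (a0, i0) = (b0, j0) := by
  classical
  have key : ∀ A : Set (Fin d → ℤ),
      Nonempty ({z : (∀ i, Fin (p i)) × Idx d // pat p z.1 z.2.1 = A} ≃
        {z : (∀ i, Fin (q i)) × Idx d // pat q z.1 z.2.1 = A}) := by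
    intro A
    obtain ⟨f1, hf1⟩ := exists_fibre_inj p A
    obtain ⟨g1, hg1⟩ := exists_inj_fibre p a0 A
    obtain ⟨f2, hf2⟩ := exists_fibre_inj q A
    obtain ⟨g2, hg2⟩ := exists_inj_fibre q b0 A
    exact Function.Embedding.antisymm ⟨g2 ∘ f1, hg2.comp hf1⟩ ⟨g1 ∘ f2, hg1.comp hf2⟩
  let e0 : ((∀ i, Fin (p i)) × Idx d) ≃ ((∀ i, Fin (q i)) × Idx d) :=
    Equiv.ofFiberEquiv (f := fun z => pat p z.1 z.2.1) (g := fun z => pat q z.1 z.2.1)
      (fun A => (key A).some)
  have he0 : ∀ z, pat q (e0 z).1 (e0 z).2.1 = pat p z.1 z.2.1 := fun z =>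
    Equiv.ofFiberEquiv_map (f := fun z : (∀ i, Fin (p i)) × Idx d => pat p z.1 z.2.1)
      (g := fun z : (∀ i, Fin (q i)) × Idx d => pat q z.1 z.2.1) (fun A => (key A).some) z
  refine ⟨e0.trans (Equiv.swap (e0 (a0, i0)) (b0, j0)), ?_, ?_⟩
  · intro z
    rw [← he0 z]
    simp only [Equiv.trans_apply]
    rw [Equiv.swap_apply_def]
    split_ifs with h1 h2
    · rw [h1, he0]
      exact h.symm
    · rw [h2, he0]
      exact h
    · rfl
  · simp

end Pool.Agent.NB
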